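import Mathlib

/-!
Positions of the points of the extremal sets for Hickerson's problem.
A point is a triple `(a, t, e)`: run `a`, pair index `t < a`, parity `e < 2`.
-/

namespace Pool.Agent.Helper73.Hick

/-- triangular numbers -/
def T (n : ℕ) : ℕ := n * (n + 1) / 2

theorem two_T (n : ℕ) : 2 * T n = n * (n + 1) :=
  Nat.mul_div_cancel' (Nat.even_mul_succ_self n).two_dvd

theorem T_zero : T 0 = 0 := rfl

theorem T_succ (n : ℕ) : T (n + 1) = T n + (n + 1) := by
  have h1 := two_T n
  have h2 := two_T (n + 1)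
  nlinarith

theorem T_add (m n : ℕ) : T (m + n) = T m + T n + m * n := by
  have h1 := two_T m
  have h2 := two_T n
  have h3 := two_T (m + n)
  nlinarith

theorem T_mono {m n : ℕ} (h : m ≤ n) : T m ≤ T n := by
  obtain ⟨k, rfl⟩ := Nat.exists_eq_add_of_le h
  rw [T_add]; nlinarith [Nat.zero_le (T k), Nat.zero_le (m * k)]

theorem le_T (n : ℕ) : n ≤ T n := by
  have := two_T n
  nlinarith [Nat.zero_le n, sq_nonneg ((n : ℤ) - 1), Nat.le_mul_self n]

/-- starting position of run `a` -/
def X (c : ℕ → ℕ) : ℕ → ℕ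
  | 0 => 0
  | (a + 1) => X c a + a * c a + T a

/-- position of a point -/
def pos (c : ℕ → ℕ) (p : ℕ × ℕ × ℕ) : ℕ := X c p.1 + p.2.1 * c p.1 + T p.2.1 + p.2.2 * p.1

/-- the full triangular index set -/
def Dom (L : ℕ) : Finset (ℕ × ℕ × ℕ) :=
  ((Finset.range (L + 1)) ×ˢ (Finset.range L) ×ˢ (Finset.range 2)).filter
    (fun p => p.2.1 < p.1)

theorem mem_Dom {L a t e : ℕ} : (a, t, e) ∈ Dom L ↔ a ≤ L ∧ t < a ∧ e < 2 := by
  simp only [Dom, Finset.mem_filter, Finset.mem_product, Finset.mem_range]
  omega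

/-- pairs at distance `z` -/
def Q (c : ℕ → ℕ) (L z : ℕ) : Finset ((ℕ × ℕ × ℕ) × (ℕ × ℕ × ℕ)) :=
  ((Dom L) ×ˢ (Dom L)).filter (fun q => pos c q.2 = pos c q.1 + z)

/-- the hypotheses on the top values `c a` of the runs -/
structure Good (S : ℕ) (c : ℕ → ℕ) : Prop where
  posS : 1 ≤ S
  val : ∀ a, c a = S ∨ c a = S + 1
  mono : Monotone c
  top : c (S + 1) = S + 1

variable {S : ℕ} {c : ℕ → ℕ}

theorem Good.le (h : Good S c) (a : ℕ) : c a ≤ S + 1 := by
  rcases h.val a with h | h <;> omega

theorem Good.ge (h : Good S c) (a : ℕ) : S ≤ c a := by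
  rcases h.val a with h | h <;> omega

theorem X_succ (a : ℕ) : X c (a + 1) = X c a + a * c a + T a := rfl

theorem X_mono : Monotone (X c) := by
  apply monotone_nat_of_le_succ
  intro a
  rw [X_succ]; omega

theorem pos_def (a t e : ℕ) : pos c (a, t, e) = X c a + t * c a + T t + e * a := rfl

/-- a point of run `a` lies before the start of run `a+1` -/
theorem pos_lt (h : Good S c) {a t e : ℕ} (ht : t < a) (he : e < 2) :
    pos c (a, t, e) < X c (a + 1) := by
  rw [pos_def, X_succ]
  obtain ⟨s, rfl⟩ := Nat.exists_eq_add_of_lt ht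
  have h1 : T (t + s + 1) = T t + T (s + 1) + t * (s + 1) := by
    rw [add_assoc, T_add]
  have h2 := T_succ s
  have h3 := h.ge (t + s + 1)
  have h4 := h.posS
  have h5 : e * (t + s + 1) ≤ t + s + 1 := by
    have : e ≤ 1 := by omega
    nlinarith
  rw [h1, h2]
  have h6 : (t + s + 1) * c (t + s + 1) = t * c (t + s + 1) + (s + 1) * c (t + s + 1) := by ring
  have h7 : s + 1 ≤ (s + 1) * c (t + s + 1) := by nlinarith
  have h8 : t ≤ t * (s + 1) := by nlinarith
  rw [h6]
  have : 1 ≤ s + 1 := by omega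
  nlinarith

/-- if the second point is later then its run index is not smaller -/
theorem run_le (h : Good S c) {a t e a' t' e' : ℕ} (ht' : t' < a') (he' : e' < 2)
    (hlt : pos c (a, t, e) < pos c (a', t', e')) : a ≤ a' := by
  by_contra hcon
  push Not at hcon
  have h1 := pos_lt h ht' he'
  have h2 : X c (a' + 1) ≤ X c a := X_mono hcon
  have h3 : X c a ≤ pos c (a, t, e) := by rw [pos_def]; omega
  omega

theorem pos_inj (h : Good S c) {a t e a' t' e' : ℕ} (h1 : a ≤ S + 1) (h2 : t < a) (h3 : e < 2)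
    (h2' : t' < a') (h3' : e' < 2) (h1' : a' ≤ S + 1)
    (heq : pos c (a, t, e) = pos c (a', t', e')) : a = a' ∧ t = t' ∧ e = e' := by
  have hS := h.posS
  have haa : a = a' := by
    rcases lt_trichotomy a a' with hlt | he | hlt
    · have e1 := pos_lt h h2 h3
      have e2 : X c (a + 1) ≤ X c a' := X_mono hlt
      have e3 : X c a' ≤ pos c (a', t', e') := by rw [pos_def]; omega
      omega
    · exact he
    · have e1 := pos_lt h h2' h3'
      have e2 : X c (a' + 1) ≤ X c a := X_mono hlt
      have e3 : X c a ≤ pos c (a, t, e) := by rw [pos_def]; omega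
      omega
  subst haa
  rw [pos_def, pos_def] at heq
  have hac : a ≤ c a := by
    rcases Nat.lt_or_ge a (S + 1) with h4 | h4
    · have := h.ge a; omega
    · have h5 : a = S + 1 := by omega
      rw [h5, h.top]
  have aux : ∀ t t' e e' : ℕ, t < t' → e < 2 →
      t * c a + T t + e * a < t' * c a + T t' + e' * a := by
    intro t t' e e' hlt he
    obtain ⟨k, rfl⟩ := Nat.exists_eq_add_of_lt hlt
    have e1 : T (t + k + 1) = T (t + k) + (t + k + 1) := T_succ _
    have e2 : T t ≤ T (t + k) := T_mono (by omega)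
    have e3 : (t + k + 1) * c a = t * c a + k * c a + c a := by ring
    have e4 : e * a ≤ a := by
      have : e = 0 ∨ e = 1 := by omega
      rcases this with rfl | rfl <;> omega
    rw [e1, e3]
    have e5 : 0 ≤ k * c a := Nat.zero_le _
    have e6 : 0 ≤ e' * a := Nat.zero_le _
    omega
  have htt : t = t' := by
    rcases lt_trichotomy t t' with hlt | he | hlt
    · have := aux t t' e e' hlt h3; omega
    · exact he
    · have := aux t' t e' e hlt h3'; omega
  subst htt
  have hee : e * a = e' * a := by omega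
  exact ⟨rfl, rfl, Nat.eq_of_mul_eq_mul_right (by omega) hee⟩

end Pool.Agent.Helper73.Hick
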