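import Pool.Agent.Helper73.Hick.Basic

/-!
Counting pairs of points in the same run.
-/

namespace Pool.Agent.Helper73.Hick

variable {S : ℕ} {c : ℕ → ℕ}

/-- bound for the number of pairs in one run, same parity, `d` pairs apart -/
def F1 (S z d : ℕ) : ℕ :=
  if d * S + T d ≤ z then 2 * (S + 1) - ((z - T d) / d + d) else 0

theorem mem_Q {L z a t e a' t' e' : ℕ} :
    (((a, t, e), (a', t', e')) : (ℕ × ℕ × ℕ) × (ℕ × ℕ × ℕ)) ∈ Q c L z ↔
      (a ≤ L ∧ t < a ∧ e < 2) ∧ (a' ≤ L ∧ t' < a' ∧ e' < 2) ∧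
      X c a' + t' * c a' + T t' + e' * a' = X c a + t * c a + T t + e * a + z := by
  simp only [Q, Finset.mem_filter, Finset.mem_product, mem_Dom, pos_def]
  tauto

theorem card_Q1 (h : Good S c) {z : ℕ} (hz : 0 < z) :
    ((Q c (S + 1) z).filter (fun q => q.1.1 = q.2.1 ∧ q.1.2.2 = q.2.2.2)).card ≤
      ∑ d ∈ Finset.Icc 1 (z / S), 2 * F1 S z d := by
  have hS := h.posS
  -- basic facts on members
  have key : ∀ a t e t' : ℕ,
      (((a, t, e), (a, t', e)) : (ℕ × ℕ × ℕ) × (ℕ × ℕ × ℕ)) ∈ Q c (S + 1) z →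
      ∃ d, 1 ≤ d ∧ t' = t + d ∧ z = d * (c a + t) + T d ∧ t + d < a ∧ a ≤ S + 1 := by
    intro a t e t' hq
    rw [mem_Q] at hq
    obtain ⟨⟨h1, h2, h3⟩, ⟨h4, h5, h6⟩, h7⟩ := hq
    have hlt : t < t' := by
      by_contra hcon
      push Not at hcon
      have e1 : t' * c a ≤ t * c a := Nat.mul_le_mul_right _ hcon
      have e2 := T_mono hcon
      omega
    obtain ⟨d, rfl⟩ := Nat.exists_eq_add_of_lt hlt
    refine ⟨d + 1, by omega, by omega, ?_, by omega, h1⟩
    have e1 : T (t + d + 1) = T t + T (d + 1) + t * (d + 1) := by rw [add_assoc, T_add]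
    rw [e1] at h7
    have e2 : (t + d + 1) * c a = t * c a + (d + 1) * c a := by ring
    rw [e2] at h7
    have e3 : (d + 1) * (c a + t) = (d + 1) * c a + t * (d + 1) := by ring
    rw [e3]; omega
  rw [Finset.card_eq_sum_card_fiberwise (f := fun q => (q.2.2.1 - q.1.2.1, q.1.2.2))
    (t := (Finset.Icc 1 (z / S)) ×ˢ (Finset.range 2))]
  · rw [Finset.sum_product]
    apply Finset.sum_le_sum
    intro d hd
    rw [Finset.mem_Icc] at hd
    have hfib : ∀ e, (Finset.filter (fun q : (ℕ × ℕ × ℕ) × (ℕ × ℕ × ℕ) =>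
        (q.2.2.1 - q.1.2.1, q.1.2.2) = (d, e))
        ((Q c (S + 1) z).filter (fun q => q.1.1 = q.2.1 ∧ q.1.2.2 = q.2.2.2))).card ≤ F1 S z d := by
      intro e
      have key2 : ∀ q ∈ (Finset.filter (fun q : (ℕ × ℕ × ℕ) × (ℕ × ℕ × ℕ) =>
        (q.2.2.1 - q.1.2.1, q.1.2.2) = (d, e))
        ((Q c (S + 1) z).filter (fun q => q.1.1 = q.2.1 ∧ q.1.2.2 = q.2.2.2))),
          ∃ a t, q = ((a, t, e), (a, t + d, e)) ∧ z = d * (c a + t) + T d ∧ t + d < a ∧
            a ≤ S + 1 := by
        rintro ⟨⟨a, t, e1⟩, ⟨a', t', e'⟩⟩ hq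
        simp only [Finset.mem_filter, Prod.mk.injEq] at hq
        obtain ⟨⟨hq, rfl, rfl⟩, h2, rfl⟩ := hq
        obtain ⟨d', hd', rfl, h3, h4, h5⟩ := key _ _ _ _ hq
        have : d' = d := by omega
        subst this
        exact ⟨a, t, rfl, h3, h4, h5⟩
      unfold F1
      split_ifs with hcond
      · calc _ ≤ (Finset.Ioc ((z - T d) / d + d - (S + 1)) (S + 1)).card := by
              apply Finset.card_le_card_of_injOn (fun q => q.1.1)
              · intro q hq
                obtain ⟨a, t, rfl, h3, h4, h5⟩ := key2 q (Finset.mem_coe.mp hq)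
                have e1 : z - T d = d * (c a + t) := by omega
                have e2 : (z - T d) / d = c a + t := by
                  rw [e1]; exact Nat.mul_div_cancel_left _ (by omega)
                have e3 := h.le a
                simp only [Finset.coe_Ioc, Set.mem_Ioc]
                omega
              · intro q hq q' hq' heq
                obtain ⟨a, t, rfl, h3, h4, h5⟩ := key2 q (Finset.mem_coe.mp hq)
                obtain ⟨a', t', rfl, h3', h4', h5'⟩ := key2 q' (Finset.mem_coe.mp hq')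
                simp only at heq
                subst heq
                have e1 : d * (c a + t) = d * (c a + t') := by omega
                have e2 : c a + t = c a + t' := Nat.eq_of_mul_eq_mul_left (by omega) e1
                have e3 : t = t' := by omega
                subst e3; rfl
          _ ≤ _ := by
              rw [Nat.card_Ioc]; omega
      · rw [Nat.le_zero, Finset.card_eq_zero, Finset.eq_empty_iff_forall_notMem]
        intro q hq
        obtain ⟨a, t, rfl, h3, h4, h5⟩ := key2 q hq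
        apply hcond
        rw [h3]
        have := h.ge a
        nlinarith
    rw [Finset.sum_range_succ, Finset.sum_range_one, two_mul]
    exact Nat.add_le_add (hfib 0) (hfib 1)
  · rintro ⟨⟨a, t, e1⟩, ⟨a', t', e'⟩⟩ hq
    rw [Finset.mem_coe] at hq
    simp only [Finset.mem_filter] at hq
    obtain ⟨hq, rfl, rfl⟩ := hq
    obtain ⟨d, hd, rfl, h3, h4, h5⟩ := key _ _ _ _ hq
    rw [mem_Q] at hq
    rw [Finset.mem_coe, Finset.mem_product, Finset.mem_Icc, Finset.mem_range]
    refine ⟨⟨by simp; omega, ?_⟩, hq.1.2.2⟩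
    simp only [Nat.add_sub_cancel_left]
    rw [Nat.le_div_iff_mul_le (by omega)]
    rw [h3]
    have := h.ge a
    nlinarith

end Pool.Agent.Helper73.Hick
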