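import Pool.Agent.Helper73.Hick.ClassA

/-!
Counting pairs of points in the same run with different parity.
-/

namespace Pool.Agent.Helper73.Hick

variable {S : ℕ} {c : ℕ → ℕ}

/-- even to odd, `d` pairs apart -/
def F2 (S z d : ℕ) : ℕ :=
  (z + (S + 1) - (T d + d + 1)) / (d + 1) + 1 - max S ((z - (S + 1 + T d) + (d - 1)) / d)

/-- odd to even, `e` pairs apart -/
def F3 (S z e : ℕ) : ℕ :=
  (z + (S + 1) - T e) / e + 1 - max S ((z + e + 1 - (T e + (S + 1)) + (e - 2)) / (e - 1))

theorem key2 (h : Good S c) {z : ℕ} (hz : S + 1 < z) {a t t' : ℕ}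
    (hq : (((a, t, 0), (a, t', 1)) : (ℕ × ℕ × ℕ) × (ℕ × ℕ × ℕ)) ∈ Q c (S + 1) z) :
    ∃ d, 1 ≤ d ∧ t' = t + d ∧ z = d * (c a + t) + T d + a ∧ t + d < a ∧ a ≤ S + 1 := by
  rw [mem_Q] at hq
  obtain ⟨⟨h1, h2, h3⟩, ⟨h4, h5, h6⟩, h7⟩ := hq
  have hlt : t ≤ t' := by
    by_contra hcon
    push Not at hcon
    have e1 : t' * c a ≤ t * c a := Nat.mul_le_mul_right _ hcon.le
    have e2 := T_mono hcon.le
    omega
  obtain ⟨d, rfl⟩ := Nat.exists_eq_add_of_le hlt
  have e1 : T (t + d) = T t + T d + t * d := T_add _ _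
  rw [e1] at h7
  have e2 : (t + d) * c a = t * c a + d * c a := by ring
  rw [e2] at h7
  have e3 : d * (c a + t) = d * c a + t * d := by ring
  refine ⟨d, ?_, rfl, by rw [e3]; omega, h5, h1⟩
  by_contra hcon
  have : d = 0 := by omega
  subst this
  simp only [T_zero, Nat.zero_mul, Nat.mul_zero] at h7
  omega

theorem key3 (h : Good S c) {z : ℕ} (hz : S + 1 < z) {a t t' : ℕ}
    (hq : (((a, t, 1), (a, t', 0)) : (ℕ × ℕ × ℕ) × (ℕ × ℕ × ℕ)) ∈ Q c (S + 1) z) :
    ∃ d, 2 ≤ d ∧ t' = t + d ∧ z + a = d * (c a + t) + T d ∧ t + d < a ∧ a ≤ S + 1 := by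
  rw [mem_Q] at hq
  obtain ⟨⟨h1, h2, h3⟩, ⟨h4, h5, h6⟩, h7⟩ := hq
  have hlt : t ≤ t' := by
    by_contra hcon
    push Not at hcon
    have e1 : t' * c a ≤ t * c a := Nat.mul_le_mul_right _ hcon.le
    have e2 := T_mono hcon.le
    omega
  obtain ⟨d, rfl⟩ := Nat.exists_eq_add_of_le hlt
  have e1 : T (t + d) = T t + T d + t * d := T_add _ _
  rw [e1] at h7
  have e2 : (t + d) * c a = t * c a + d * c a := by ring
  rw [e2] at h7
  have e3 : d * (c a + t) = d * c a + t * d := by ring
  refine ⟨d, ?_, rfl, by rw [e3]; omega, h5, h1⟩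
  by_contra hcon
  have hle := h.le a
  have : d = 0 ∨ d = 1 := by omega
  rcases this with rfl | rfl
  · simp only [T_zero, Nat.zero_mul, Nat.mul_zero] at h7
    omega
  · have : T 1 = 1 := rfl
    rw [this] at h7
    omega

theorem card_Q2 (h : Good S c) {z : ℕ} (hz : S + 1 < z) :
    ((Q c (S + 1) z).filter (fun q => q.1.1 = q.2.1 ∧ q.1.2.2 = 0 ∧ q.2.2.2 = 1)).card ≤
      ∑ d ∈ Finset.Icc 1 (z / S), F2 S z d := by
  have hS := h.posS
  rw [Finset.card_eq_sum_card_fiberwise (f := fun q => q.2.2.1 - q.1.2.1)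
    (t := (Finset.Icc 1 (z / S)))]
  · apply Finset.sum_le_sum
    intro d hd
    rw [Finset.mem_Icc] at hd
    have key2' : ∀ q ∈ (Finset.filter (fun q : (ℕ × ℕ × ℕ) × (ℕ × ℕ × ℕ) =>
        q.2.2.1 - q.1.2.1 = d)
        ((Q c (S + 1) z).filter (fun q => q.1.1 = q.2.1 ∧ q.1.2.2 = 0 ∧ q.2.2.2 = 1))),
          ∃ a t, q = ((a, t, 0), (a, t + d, 1)) ∧ z = d * (c a + t) + T d + a ∧ t + d < a ∧
            a ≤ S + 1 := by
      rintro ⟨⟨a, t, e1⟩, ⟨a', t', e'⟩⟩ hq
      simp only [Finset.mem_filter] at hq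
      obtain ⟨⟨hq, rfl, rfl, rfl⟩, h2⟩ := hq
      obtain ⟨d', hd', rfl, h3, h4, h5⟩ := key2 h hz hq
      have : d' = d := by omega
      subst this
      exact ⟨a, t, rfl, h3, h4, h5⟩
    unfold F2
    calc _ ≤ (Finset.Icc (max S ((z - (S + 1 + T d) + (d - 1)) / d))
            ((z + (S + 1) - (T d + d + 1)) / (d + 1))).card := by
          apply Finset.card_le_card_of_injOn (fun q => c q.1.1 + q.1.2.1)
          · intro q hq
            obtain ⟨a, t, rfl, h3, h4, h5⟩ := key2' q (Finset.mem_coe.mp hq)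
            have e1 := h.le a
            have e2 := h.ge a
            simp only [Finset.coe_Icc, Set.mem_Icc, max_le_iff]
            refine ⟨⟨by omega, ?_⟩, ?_⟩
            · rw [Nat.div_le_iff_le_mul_add_pred (by omega)]
              omega
            · rw [Nat.le_div_iff_mul_le (by omega)]
              have e4 : (c a + t) * (d + 1) = d * (c a + t) + (c a + t) := by ring
              rw [e4]; omega
          · intro q hq q' hq' heq
            obtain ⟨a, t, rfl, h3, h4, h5⟩ := key2' q (Finset.mem_coe.mp hq)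
            obtain ⟨a', t', rfl, h3', h4', h5'⟩ := key2' q' (Finset.mem_coe.mp hq')
            simp only at heq
            rw [heq] at h3
            have e3 : a = a' := by omega
            subst e3
            have e4 : t = t' := by omega
            subst e4; rfl
      _ ≤ _ := by
          rw [Nat.card_Icc]
  · rintro ⟨⟨a, t, e1⟩, ⟨a', t', e'⟩⟩ hq
    rw [Finset.mem_coe] at hq
    simp only [Finset.mem_filter] at hq
    obtain ⟨hq, rfl, rfl, rfl⟩ := hq
    obtain ⟨d, hd, rfl, h3, h4, h5⟩ := key2 h hz hq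
    rw [Finset.mem_coe, Finset.mem_Icc]
    simp only [Nat.add_sub_cancel_left]
    refine ⟨hd, ?_⟩
    rw [Nat.le_div_iff_mul_le (by omega)]
    rw [h3]
    have := h.ge a
    nlinarith

theorem card_Q3 (h : Good S c) {z : ℕ} (hz : S + 1 < z) :
    ((Q c (S + 1) z).filter (fun q => q.1.1 = q.2.1 ∧ q.1.2.2 = 1 ∧ q.2.2.2 = 0)).card ≤
      ∑ d ∈ Finset.Icc 2 (z / S + 1), F3 S z d := by
  have hS := h.posS
  rw [Finset.card_eq_sum_card_fiberwise (f := fun q => q.2.2.1 - q.1.2.1)
    (t := (Finset.Icc 2 (z / S + 1)))]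
  · apply Finset.sum_le_sum
    intro d hd
    rw [Finset.mem_Icc] at hd
    have key2' : ∀ q ∈ (Finset.filter (fun q : (ℕ × ℕ × ℕ) × (ℕ × ℕ × ℕ) =>
        q.2.2.1 - q.1.2.1 = d)
        ((Q c (S + 1) z).filter (fun q => q.1.1 = q.2.1 ∧ q.1.2.2 = 1 ∧ q.2.2.2 = 0))),
          ∃ a t, q = ((a, t, 1), (a, t + d, 0)) ∧ z + a = d * (c a + t) + T d ∧ t + d < a ∧
            a ≤ S + 1 := by
      rintro ⟨⟨a, t, e1⟩, ⟨a', t', e'⟩⟩ hq
      simp only [Finset.mem_filter] at hq
      obtain ⟨⟨hq, rfl, rfl, rfl⟩, h2⟩ := hq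
      obtain ⟨d', hd', rfl, h3, h4, h5⟩ := key3 h hz hq
      have : d' = d := by omega
      subst this
      exact ⟨a, t, rfl, h3, h4, h5⟩
    unfold F3
    calc _ ≤ (Finset.Icc (max S ((z + d + 1 - (T d + (S + 1)) + (d - 2)) / (d - 1)))
            ((z + (S + 1) - T d) / d)).card := by
          apply Finset.card_le_card_of_injOn (fun q => c q.1.1 + q.1.2.1)
          · intro q hq
            obtain ⟨a, t, rfl, h3, h4, h5⟩ := key2' q (Finset.mem_coe.mp hq)
            have e1 := h.le a
            have e2 := h.ge a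
            simp only [Finset.coe_Icc, Set.mem_Icc, max_le_iff]
            refine ⟨⟨by omega, ?_⟩, ?_⟩
            · rw [Nat.div_le_iff_le_mul_add_pred (by omega)]
              obtain ⟨k, rfl⟩ : ∃ k, d = k + 2 := ⟨d - 2, by omega⟩
              have e4 : (k + 2) * (c a + t) = (k + 1) * (c a + t) + (c a + t) := by ring
              rw [e4] at h3
              have e5 : k + 2 - 1 = k + 1 := by omega
              rw [e5]
              omega
            · rw [Nat.le_div_iff_mul_le (by omega)]
              have e4 : (c a + t) * d = d * (c a + t) := by ring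
              rw [e4]; omega
          · intro q hq q' hq' heq
            obtain ⟨a, t, rfl, h3, h4, h5⟩ := key2' q (Finset.mem_coe.mp hq)
            obtain ⟨a', t', rfl, h3', h4', h5'⟩ := key2' q' (Finset.mem_coe.mp hq')
            simp only at heq
            rw [heq] at h3
            have e3 : a = a' := by omega
            subst e3
            have e4 : t = t' := by omega
            subst e4; rfl
      _ ≤ _ := by
          rw [Nat.card_Icc]
  · rintro ⟨⟨a, t, e1⟩, ⟨a', t', e'⟩⟩ hq
    rw [Finset.mem_coe] at hq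
    simp only [Finset.mem_filter] at hq
    obtain ⟨hq, rfl, rfl, rfl⟩ := hq
    obtain ⟨d, hd, rfl, h3, h4, h5⟩ := key3 h hz hq
    rw [Finset.mem_coe, Finset.mem_Icc]
    simp only [Nat.add_sub_cancel_left]
    refine ⟨hd, ?_⟩
    obtain ⟨k, rfl⟩ : ∃ k, d = k + 1 := ⟨d - 1, by omega⟩
    have : k ≤ z / S := by
      rw [Nat.le_div_iff_mul_le (by omega)]
      have e2 := h.ge a
      have e3 : (k + 1) * S ≤ (k + 1) * (c a + t) := Nat.mul_le_mul_left _ (by omega)
      have e4 : (k + 1) * S = k * S + S := by ring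
      have e5 := le_T (k + 1)
      omega
    omega

/-- crude bounds -/
theorem card_Q2_crude (h : Good S c) {z : ℕ} (hz : S + 1 < z) :
    ((Q c (S + 1) z).filter (fun q => q.1.1 = q.2.1 ∧ q.1.2.2 = 0 ∧ q.2.2.2 = 1)).card ≤
      S + 1 := by
  have hS := h.posS
  have key2' : ∀ q ∈ ((Q c (S + 1) z).filter
      (fun q => q.1.1 = q.2.1 ∧ q.1.2.2 = 0 ∧ q.2.2.2 = 1)),
        ∃ a t d, 1 ≤ d ∧ q = ((a, t, 0), (a, t + d, 1)) ∧
          z = d * (c a + t) + T d + a ∧ t + d < a ∧ a ≤ S + 1 := by
    rintro ⟨⟨a, t, e1⟩, ⟨a', t', e'⟩⟩ hq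
    simp only [Finset.mem_filter] at hq
    obtain ⟨hq, rfl, rfl, rfl⟩ := hq
    obtain ⟨d', hd', rfl, h3, h4, h5⟩ := key2 h hz hq
    exact ⟨a, t, d', hd', rfl, h3, h4, h5⟩
  calc _ ≤ (Finset.Icc S (2 * S)).card := by
        apply Finset.card_le_card_of_injOn (fun q => c q.1.1 + q.1.2.1)
        · intro q hq
          obtain ⟨a, t, d, h1, rfl, h3, h4, h5⟩ := key2' q (Finset.mem_coe.mp hq)
          have e1 := h.le a
          have e2 := h.ge a
          simp only [Finset.coe_Icc, Set.mem_Icc]
          omega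
        · intro q hq q' hq' heq
          obtain ⟨a, t, d, h1, rfl, h3, h4, h5⟩ := key2' q (Finset.mem_coe.mp hq)
          obtain ⟨a', t', d', h1', rfl, h3', h4', h5'⟩ := key2' q' (Finset.mem_coe.mp hq')
          simp only at heq
          rw [heq] at h3
          have e2 := h.ge a'
          have hdd : d = d' := by
            rcases lt_trichotomy d d' with hlt | heq' | hlt
            · exfalso
              obtain ⟨k, rfl⟩ := Nat.exists_eq_add_of_lt hlt
              have e5 : (d + k + 1) * (c a' + t') = d * (c a' + t') + k * (c a' + t')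
                + (c a' + t') := by ring
              have e6 : T d ≤ T (d + k + 1) := T_mono (by omega)
              have e7 : T (d + k + 1) = T (d + k) + (d + k + 1) := T_succ _
              have e8 : T d ≤ T (d + k) := T_mono (by omega)
              rw [e5] at h3'
              omega
            · exact heq'
            · exfalso
              obtain ⟨k, rfl⟩ := Nat.exists_eq_add_of_lt hlt
              have e5 : (d' + k + 1) * (c a' + t') = d' * (c a' + t') + k * (c a' + t')
                + (c a' + t') := by ring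
              have e7 : T (d' + k + 1) = T (d' + k) + (d' + k + 1) := T_succ _
              have e8 : T d' ≤ T (d' + k) := T_mono (by omega)
              rw [e5] at h3
              omega
          subst hdd
          have e3 : a = a' := by omega
          subst e3
          have e4 : t = t' := by omega
          subst e4; rfl
    _ ≤ _ := by rw [Nat.card_Icc]; omega

theorem card_Q3_crude (h : Good S c) {z : ℕ} (hz : S + 1 < z) :
    ((Q c (S + 1) z).filter (fun q => q.1.1 = q.2.1 ∧ q.1.2.2 = 1 ∧ q.2.2.2 = 0)).card ≤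
      S := by
  have hS := h.posS
  have key2' : ∀ q ∈ ((Q c (S + 1) z).filter
      (fun q => q.1.1 = q.2.1 ∧ q.1.2.2 = 1 ∧ q.2.2.2 = 0)),
        ∃ a t d, 2 ≤ d ∧ q = ((a, t, 1), (a, t + d, 0)) ∧
          z + a = d * (c a + t) + T d ∧ t + d < a ∧ a ≤ S + 1 := by
    rintro ⟨⟨a, t, e1⟩, ⟨a', t', e'⟩⟩ hq
    simp only [Finset.mem_filter] at hq
    obtain ⟨hq, rfl, rfl, rfl⟩ := hq
    obtain ⟨d', hd', rfl, h3, h4, h5⟩ := key3 h hz hq
    exact ⟨a, t, d', hd', rfl, h3, h4, h5⟩
  calc _ ≤ (Finset.Icc S (2 * S - 1)).card := by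
        apply Finset.card_le_card_of_injOn (fun q => c q.1.1 + q.1.2.1)
        · intro q hq
          obtain ⟨a, t, d, h1, rfl, h3, h4, h5⟩ := key2' q (Finset.mem_coe.mp hq)
          have e1 := h.le a
          have e2 := h.ge a
          simp only [Finset.coe_Icc, Set.mem_Icc]
          omega
        · intro q hq q' hq' heq
          obtain ⟨a, t, d, h1, rfl, h3, h4, h5⟩ := key2' q (Finset.mem_coe.mp hq)
          obtain ⟨a', t', d', h1', rfl, h3', h4', h5'⟩ := key2' q' (Finset.mem_coe.mp hq')
          simp only at heq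
          rw [heq] at h3
          have e2 := h.ge a'
          have hdd : d = d' := by
            rcases lt_trichotomy d d' with hlt | heq' | hlt
            · exfalso
              obtain ⟨k, rfl⟩ := Nat.exists_eq_add_of_lt hlt
              have e5 : (d + k + 1) * (c a' + t') = d * (c a' + t') + k * (c a' + t')
                + (c a' + t') := by ring
              have e7 : T (d + k + 1) = T (d + k) + (d + k + 1) := T_succ _
              have e8 : T d ≤ T (d + k) := T_mono (by omega)
              rw [e5] at h3'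
              omega
            · exact heq'
            · exfalso
              obtain ⟨k, rfl⟩ := Nat.exists_eq_add_of_lt hlt
              have e5 : (d' + k + 1) * (c a' + t') = d' * (c a' + t') + k * (c a' + t')
                + (c a' + t') := by ring
              have e7 : T (d' + k + 1) = T (d' + k) + (d' + k + 1) := T_succ _
              have e8 : T d' ≤ T (d' + k) := T_mono (by omega)
              rw [e5] at h3
              omega
          subst hdd
          have e3 : a = a' := by omega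
          subst e3
          have e4 : t = t' := by omega
          subst e4; rfl
    _ ≤ _ := by rw [Nat.card_Icc]; omega

end Pool.Agent.Helper73.Hick
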