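import Pool.Agent.Helper73.Hick.ClassB

/-!
Counting pairs of points in different runs.
-/

namespace Pool.Agent.Helper73.Hick

variable {S : ℕ} {c : ℕ → ℕ}

theorem T_pred (s : ℕ) (hs : 1 ≤ s) : T s + T (s - 1) = s * s := by
  obtain ⟨k, rfl⟩ : ∃ k, s = k + 1 := ⟨s - 1, by omega⟩
  have h1 := two_T (k + 1)
  have h2 := two_T k
  have h3 : k + 1 - 1 = k := by omega
  rw [h3]
  nlinarith

/-- crossing one boundary: data -/
theorem key4 (h : Good S c) {z : ℕ} {a t e u e' : ℕ}
    (hq : (((a, t, e), (a + 1, u, e')) : (ℕ × ℕ × ℕ) × (ℕ × ℕ × ℕ)) ∈ Q c (S + 1) z) :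
    ∃ s, 1 ≤ s ∧ a = t + s ∧ u ≤ a ∧ a ≤ S ∧ e < 2 ∧ e' < 2 ∧
      z + e * a + T (s - 1) = s * c a + s * a + u * c (a + 1) + T u + e' * (a + 1) := by
  rw [mem_Q] at hq
  obtain ⟨⟨h1, h2, h3⟩, ⟨h4, h5, h6⟩, h7⟩ := hq
  obtain ⟨k, hk⟩ := Nat.exists_eq_add_of_lt h2
  refine ⟨k + 1, by omega, by omega, by omega, by omega, h3, h6, ?_⟩
  rw [X_succ] at h7
  have e1 : T a = T t + T (k + 1) + t * (k + 1) := by rw [hk, add_assoc, T_add]
  have e2 : a * c a = t * c a + (k + 1) * c a := by
    have : a = t + (k + 1) := by omega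
    nth_rewrite 1 [this]; ring
  have e3 := T_pred (k + 1) (by omega)
  have e4 : (k + 1) * a = (k + 1) * (k + 1) + t * (k + 1) := by
    have : a = t + (k + 1) := by omega
    rw [this]; ring
  rw [e1, e2] at h7
  rw [e4]
  omega

/-- the possible types of pairs crossing one boundary -/
def C4set (S z : ℕ) : Finset (ℕ × ℕ × ℕ × ℕ) :=
  ((Finset.Icc 1 (z / S)) ×ˢ (Finset.range (z / S + 1)) ×ˢ (Finset.range 2) ×ˢ
    (Finset.range 2)).filter (fun p =>
      ¬ (p.1 = 1 ∧ p.2.2.1 = 1 ∧ p.2.2.2 = 0) ∧ p.1 + p.2.1 ≤ z / S ∧ p.2.1 ≤ S ∧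
      p.1 * S + p.1 * (max p.1 p.2.1) + p.2.2.2 * (max p.1 p.2.1 + 1) + T p.2.1 + p.2.1 * S ≤
        z + T (p.1 - 1) + p.2.2.1 * (max p.1 p.2.1) ∧
      z + T (p.1 - 1) + p.2.2.1 * S ≤
        p.1 * (S + 1) + p.1 * S + p.2.1 * (S + 1) + T p.2.1 + p.2.2.2 * (S + 1))

theorem T_pred_le (s : ℕ) (hs : 1 ≤ s) : T (s - 1) ≤ (s - 1) * s := by
  obtain ⟨k, rfl⟩ : ∃ k, s = k + 1 := ⟨s - 1, by omega⟩
  have h2 := two_T k
  have h3 : k + 1 - 1 = k := by omega
  rw [h3]
  nlinarith

theorem card_Q4 (h : Good S c) {z : ℕ} :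
    ((Q c (S + 1) z).filter (fun q => q.2.1 = q.1.1 + 1 ∧
      ¬ (q.1.2.1 + 1 = q.1.1 ∧ q.1.2.2 = 1 ∧ q.2.2.2 = 0))).card ≤ (C4set S z).card := by
  have hS := h.posS
  have key4' : ∀ q ∈ ((Q c (S + 1) z).filter (fun q => q.2.1 = q.1.1 + 1 ∧
      ¬ (q.1.2.1 + 1 = q.1.1 ∧ q.1.2.2 = 1 ∧ q.2.2.2 = 0))),
        ∃ a t e u e' s, q = ((a, t, e), (a + 1, u, e')) ∧ 1 ≤ s ∧ a = t + s ∧ u ≤ a ∧ a ≤ S ∧
          e < 2 ∧ e' < 2 ∧ ¬ (s = 1 ∧ e = 1 ∧ e' = 0) ∧
      z + e * a + T (s - 1) = s * c a + s * a + u * c (a + 1) + T u + e' * (a + 1) := by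
    rintro ⟨⟨a, t, e⟩, ⟨a', u, e'⟩⟩ hq
    simp only [Finset.mem_filter] at hq
    obtain ⟨hq, rfl, h2⟩ := hq
    obtain ⟨s, h3, h4, h5, h6, h7, h8, h9⟩ := key4 h hq
    exact ⟨a, t, e, u, e', s, rfl, h3, h4, h5, h6, h7, h8, by omega, h9⟩
  apply Finset.card_le_card_of_injOn
    (fun q => (q.1.1 - q.1.2.1, q.2.2.1, q.1.2.2, q.2.2.2))
  · intro q hq
    obtain ⟨a, t, e, u, e', s, rfl, h3, h4, h5, h6, h7, h8, h9, h10⟩ :=
      key4' q (Finset.mem_coe.mp hq)
    have hs : a - t = s := by omega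
    simp only [hs]
    have e1 := h.le a
    have e2 := h.ge a
    have e3 := h.le (a + 1)
    have e4 := h.ge (a + 1)
    have hTs := T_pred_le s h3
    have hsa : s ≤ a := by omega
    have e5 : e ≤ 1 := by omega
    have e5' : e' ≤ 1 := by omega
    have m1 : s * S ≤ s * c a := Nat.mul_le_mul_left _ e2
    have m2 : s * c a ≤ s * (S + 1) := Nat.mul_le_mul_left _ e1
    have m3 : u * S ≤ u * c (a + 1) := Nat.mul_le_mul_left _ e4
    have m4 : u * c (a + 1) ≤ u * (S + 1) := Nat.mul_le_mul_left _ e3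
    have hsu : (s + u) * S ≤ z := by
      have n1 : (s - 1) * s ≤ (s - 1) * a := Nat.mul_le_mul_left _ hsa
      have n2 : (s - 1) * a + a = s * a := by
        obtain ⟨k, rfl⟩ : ∃ k, s = k + 1 := ⟨s - 1, by omega⟩
        have : k + 1 - 1 = k := by omega
        rw [this]; ring
      have n3 : e * a ≤ a := by nlinarith
      have n4 : (s + u) * S = s * S + u * S := by ring
      rw [n4]; omega
    have hD : s + u ≤ z / S := by rw [Nat.le_div_iff_mul_le (by omega)]; exact hsu
    rw [Finset.mem_coe, C4set, Finset.mem_filter]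
    refine ⟨?_, ?_, hD, (by show u ≤ S; omega), ?_, ?_⟩
    · simp only [Finset.mem_product, Finset.mem_Icc, Finset.mem_range]
      refine ⟨⟨h3, by omega⟩, by omega, h7, h8⟩
    · exact h9
    · -- lower
      simp only
      have hmax : max s u ≤ a := max_le hsa h5
      obtain ⟨k, hk⟩ := Nat.exists_eq_add_of_le hmax
      generalize max s u = m at hk
      subst hk
      have n1 : s * (m + k) = s * m + s * k := by ring
      have n2 : e * (m + k) = e * m + e * k := by ring
      have n3 : e' * (m + k + 1) = e' * (m + 1) + e' * k := by ring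
      rw [n1, n2, n3] at h10
      have n4 : e * k ≤ s * k := Nat.mul_le_mul_right _ (by omega)
      have n5 : 0 ≤ e' * k := Nat.zero_le _
      omega
    · simp only
      obtain ⟨k, hk⟩ := Nat.exists_eq_add_of_le h6
      have n1 : s * S = s * a + s * k := by rw [hk]; ring
      have n2 : e * S = e * a + e * k := by rw [hk]; ring
      have n3 : e' * (S + 1) = e' * (a + 1) + e' * k := by rw [hk]; ring
      have n4 : e * k ≤ s * k := Nat.mul_le_mul_right _ (by omega)
      have n5 : 0 ≤ e' * k := Nat.zero_le _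
      rw [n2, n3, n1]
      omega
  · intro q hq q' hq' heq
    obtain ⟨a, t, e, u, e', s, rfl, h3, h4, h5, h6, h7, h8, h9, h10⟩ :=
      key4' q (Finset.mem_coe.mp hq)
    obtain ⟨a2, t2, e2, u2, e2', s2, rfl, h32, h42, h52, h62, h72, h82, h92, h102⟩ :=
      key4' q' (Finset.mem_coe.mp hq')
    simp only [Prod.mk.injEq] at heq
    obtain ⟨g1, rfl, rfl, rfl⟩ := heq
    have hss : s = s2 := by omega
    subst hss
    have aux : ∀ a a2 : ℕ, a < a2 →
      z + e * a + T (s - 1) = s * c a + s * a + u * c (a + 1) + T u + e' * (a + 1) →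
      z + e * a2 + T (s - 1) = s * c a2 + s * a2 + u * c (a2 + 1) + T u + e' * (a2 + 1) →
      False := by
      intro a a2 hlt h10 h102
      have m1 : s * c a ≤ s * c a2 := Nat.mul_le_mul_left _ (h.mono hlt.le)
      have m2 : u * c (a + 1) ≤ u * c (a2 + 1) :=
        Nat.mul_le_mul_left _ (h.mono (by omega))
      obtain ⟨k, rfl⟩ := Nat.exists_eq_add_of_lt hlt
      have he : e = 0 ∨ e = 1 := by omega
      have he' : e' = 0 ∨ e' = 1 := by omega
      have n1 : s * (a + k + 1) = s * a + s * (k + 1) := by ring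
      rw [n1] at h102
      have n2 : k + 1 ≤ s * (k + 1) := by nlinarith
      rcases he with rfl | rfl
      · rcases he' with rfl | rfl <;> omega
      · rcases he' with rfl | rfl
        · have hs2 : 2 ≤ s := by omega
          have n3 : 2 * (k + 1) ≤ s * (k + 1) := Nat.mul_le_mul_right _ hs2
          omega
        · omega
    have haa : a = a2 := by
      rcases lt_trichotomy a a2 with hlt | he | hlt
      · exact (aux a a2 hlt h10 h102).elim
      · exact he
      · exact (aux a2 a hlt h102 h10).elim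
    subst haa
    have : t = t2 := by omega
    subst this
    rfl

/-- pairs from the last odd point of a run to an even point of the next run -/
def F5 (S z : ℕ) : ℕ :=
  ∑ u ∈ Finset.range (z / S + 1),
    if (u + 1) * S + T u ≤ z ∧ z ≤ (u + 1) * (S + 1) + T u then S + 1 - max u 1 else 0

theorem key5 (h : Good S c) {z : ℕ} :
    ∀ q ∈ ((Q c (S + 1) z).filter (fun q => q.2.1 = q.1.1 + 1 ∧
      (q.1.2.1 + 1 = q.1.1 ∧ q.1.2.2 = 1 ∧ q.2.2.2 = 0))),
        ∃ t u, q = ((t + 1, t, 1), (t + 2, u, 0)) ∧ u ≤ t + 1 ∧ t + 1 ≤ S ∧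
      z = c (t + 1) + u * c (t + 2) + T u := by
  rintro ⟨⟨a, t, e⟩, ⟨a', u, e'⟩⟩ hq
  simp only [Finset.mem_filter] at hq
  obtain ⟨hq, rfl, rfl, rfl, rfl⟩ := hq
  obtain ⟨s, h3, h4, h5, h6, h7, h8, h9⟩ := key4 h hq
  have hs : s = 1 := by omega
  subst hs
  refine ⟨t, u, rfl, h5, h6, ?_⟩
  have : T (1 - 1) = 0 := rfl
  rw [this] at h9
  have e1 : t + 1 + 1 = t + 2 := rfl
  rw [e1] at h9
  omega

theorem card_Q5 (h : Good S c) {z : ℕ} :
    ((Q c (S + 1) z).filter (fun q => q.2.1 = q.1.1 + 1 ∧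
      (q.1.2.1 + 1 = q.1.1 ∧ q.1.2.2 = 1 ∧ q.2.2.2 = 0))).card ≤ F5 S z := by
  have hS := h.posS
  unfold F5
  rw [Finset.card_eq_sum_card_fiberwise (f := fun q => q.2.2.1)
    (t := (Finset.range (z / S + 1)))]
  · apply Finset.sum_le_sum
    intro u hu
    have key5' : ∀ q ∈ (Finset.filter (fun q : (ℕ × ℕ × ℕ) × (ℕ × ℕ × ℕ) => q.2.2.1 = u)
        ((Q c (S + 1) z).filter (fun q => q.2.1 = q.1.1 + 1 ∧
      (q.1.2.1 + 1 = q.1.1 ∧ q.1.2.2 = 1 ∧ q.2.2.2 = 0)))),
        ∃ t, q = ((t + 1, t, 1), (t + 2, u, 0)) ∧ u ≤ t + 1 ∧ t + 1 ≤ S ∧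
      z = c (t + 1) + u * c (t + 2) + T u := by
      intro q hq
      rw [Finset.mem_filter] at hq
      obtain ⟨t, u', rfl, h1, h2, h3⟩ := key5 h q hq.1
      have : u' = u := hq.2
      subst this
      exact ⟨t, rfl, h1, h2, h3⟩
    split_ifs with hcond
    · calc _ ≤ (Finset.Icc (max u 1) S).card := by
            apply Finset.card_le_card_of_injOn (fun q => q.1.1)
            · intro q hq
              obtain ⟨t, rfl, h1, h2, h3⟩ := key5' q (Finset.mem_coe.mp hq)
              simp only [Finset.coe_Icc, Set.mem_Icc, max_le_iff]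
              omega
            · intro q hq q' hq' heq
              obtain ⟨t, rfl, h1, h2, h3⟩ := key5' q (Finset.mem_coe.mp hq)
              obtain ⟨t', rfl, h1', h2', h3'⟩ := key5' q' (Finset.mem_coe.mp hq')
              simp only at heq
              have : t = t' := by omega
              subst this; rfl
        _ ≤ _ := by rw [Nat.card_Icc]
    · rw [Nat.le_zero, Finset.card_eq_zero, Finset.eq_empty_iff_forall_notMem]
      intro q hq
      obtain ⟨t, rfl, h1, h2, h3⟩ := key5' q hq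
      apply hcond
      have e1 := h.le (t + 1)
      have e2 := h.ge (t + 1)
      have e3 := h.le (t + 2)
      have e4 := h.ge (t + 2)
      have m3 : u * S ≤ u * c (t + 2) := Nat.mul_le_mul_left _ e4
      have m4 : u * c (t + 2) ≤ u * (S + 1) := Nat.mul_le_mul_left _ e3
      have m5 : (u + 1) * S = u * S + S := by ring
      have m6 : (u + 1) * (S + 1) = u * (S + 1) + (S + 1) := by ring
      rw [m5, m6]; omega
  · intro q hq
    obtain ⟨t, u, rfl, h1, h2, h3⟩ := key5 h q (Finset.mem_coe.mp hq)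
    rw [Finset.mem_coe, Finset.mem_range]
    have e2 := h.ge (t + 1)
    have e4 := h.ge (t + 2)
    have m3 : u * S ≤ u * c (t + 2) := Nat.mul_le_mul_left _ e4
    have : u ≤ z / S := by rw [Nat.le_div_iff_mul_le (by omega)]; omega
    simp only
    omega

theorem card_Q5_crude (h : Good S c) {z : ℕ} :
    ((Q c (S + 1) z).filter (fun q => q.2.1 = q.1.1 + 1 ∧
      (q.1.2.1 + 1 = q.1.1 ∧ q.1.2.2 = 1 ∧ q.2.2.2 = 0))).card ≤ S := by
  have hS := h.posS
  calc _ ≤ (Finset.Icc 1 S).card := by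
        apply Finset.card_le_card_of_injOn (fun q => q.1.1)
        · intro q hq
          obtain ⟨t, u, rfl, h1, h2, h3⟩ := key5 h q (Finset.mem_coe.mp hq)
          simp only [Finset.coe_Icc, Set.mem_Icc]
          omega
        · intro q hq q' hq' heq
          obtain ⟨t, u, rfl, h1, h2, h3⟩ := key5 h q (Finset.mem_coe.mp hq)
          obtain ⟨t', u', rfl, h1', h2', h3'⟩ := key5 h q' (Finset.mem_coe.mp hq')
          simp only at heq
          have : t = t' := by omega
          subst this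
          have e4 := h.ge (t + 2)
          have huu : u = u' := by
            rcases lt_trichotomy u u' with hlt | he | hlt
            · exfalso
              have n1 := T_mono hlt.le
              have n2 : u * c (t + 2) < u' * c (t + 2) :=
                Nat.mul_lt_mul_of_pos_right hlt (by omega)
              omega
            · exact he
            · exfalso
              have n1 := T_mono hlt.le
              have n2 : u' * c (t + 2) < u * c (t + 2) :=
                Nat.mul_lt_mul_of_pos_right hlt (by omega)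
              omega
          subst huu
          rfl
    _ ≤ _ := by rw [Nat.card_Icc]; omega

/-- pairs crossing a whole run -/
def F6 (S z : ℕ) : ℕ :=
  ∑ a ∈ Finset.range S, if (a + 1) * S + T (a + 1) < z then 2 * a else 0

theorem card_Q6 (h : Good S c) {z : ℕ} :
    ((Q c (S + 1) z).filter (fun q => q.1.1 + 2 ≤ q.2.1)).card ≤ F6 S z := by
  have hS := h.posS
  have key6 : ∀ q ∈ ((Q c (S + 1) z).filter (fun q => q.1.1 + 2 ≤ q.2.1)),
      q.1.1 < S ∧ q.1.2.1 < q.1.1 ∧ q.1.2.2 < 2 ∧ (q.1.1 + 1) * S + T (q.1.1 + 1) < z := by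
    rintro ⟨⟨a, t, e⟩, ⟨a', u, e'⟩⟩ hq
    simp only [Finset.mem_filter] at hq
    obtain ⟨hq, h2⟩ := hq
    have hq' := hq
    rw [mem_Q] at hq
    obtain ⟨⟨h11, h12, h13⟩, ⟨h4, h5, h6⟩, h7⟩ := hq
    simp only
    refine ⟨by omega, h12, h13, ?_⟩
    have e1 := pos_lt h h12 h13
    rw [pos_def] at e1
    have e2 : X c (a + 2) ≤ X c a' := X_mono h2
    have e3 : X c (a + 2) = X c (a + 1) + (a + 1) * c (a + 1) + T (a + 1) := X_succ _
    have e4 : (a + 1) * S ≤ (a + 1) * c (a + 1) := Nat.mul_le_mul_left _ (h.ge _)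
    omega
  unfold F6
  rw [Finset.card_eq_sum_card_fiberwise (f := fun q => q.1.1) (t := Finset.range S)]
  · apply Finset.sum_le_sum
    intro a ha
    split_ifs with hcond
    · calc _ ≤ (Finset.range a ×ˢ Finset.range 2).card := by
            apply Finset.card_le_card_of_injOn (fun q => q.1.2)
            · intro q hq
              have hq1 := Finset.mem_coe.mp hq
              rw [Finset.mem_filter] at hq1
              obtain ⟨g1, g2, g3, g4⟩ := key6 q hq1.1
              have : q.1.1 = a := hq1.2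
              rw [this] at g2
              rw [Finset.mem_coe, Finset.mem_product, Finset.mem_range, Finset.mem_range]
              exact ⟨g2, g3⟩
            · rintro ⟨⟨a1, t, e⟩, ⟨a', u, e'⟩⟩ hq ⟨⟨a2, t2, e2⟩, ⟨a2', u2, e2'⟩⟩ hq2 heq
              have hq := Finset.mem_coe.mp hq
              have hq2 := Finset.mem_coe.mp hq2
              simp only [Finset.mem_filter] at hq hq2
              simp only [Prod.mk.injEq] at heq
              obtain ⟨rfl, rfl⟩ := heq
              obtain ⟨⟨k1, k2⟩, rfl⟩ := hq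
              obtain ⟨⟨k3, k4⟩, rfl⟩ := hq2
              rw [mem_Q] at k1 k3
              have := pos_inj h k1.2.1.1 k1.2.1.2.1 k1.2.1.2.2 k3.2.1.2.1 k3.2.1.2.2 k3.2.1.1
                (by rw [pos_def, pos_def]; omega)
              obtain ⟨rfl, rfl, rfl⟩ := this
              rfl
        _ ≤ _ := by
            rw [Finset.card_product, Finset.card_range, Finset.card_range]; omega
    · rw [Nat.le_zero, Finset.card_eq_zero, Finset.eq_empty_iff_forall_notMem]
      intro q hq
      rw [Finset.mem_filter] at hq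
      obtain ⟨g1, g2, g3, g4⟩ := key6 q hq.1
      apply hcond
      rw [← hq.2]; exact g4
  · intro q hq
    obtain ⟨g1, g2, g3, g4⟩ := key6 q (Finset.mem_coe.mp hq)
    rw [Finset.mem_coe, Finset.mem_range]
    exact g1

end Pool.Agent.Helper73.Hick
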