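import Pool.Agent.Helper73.Hick.Small

/-!
The extremal sets and the upper bound.
-/

namespace Pool.Agent.Helper73.Hick

/-- number of pairs `(x, y)` of elements of `A` with `y - x = s` -/
def nu (A : Finset ℕ) (s : ℕ) : ℕ := ((A ×ˢ A).filter (fun p => p.1 + s = p.2)).card

/-- every difference `s ≥ 1` occurs at most `2 s` times -/
def Admissible (A : Finset ℕ) : Prop := ∀ s, 1 ≤ s → nu A s ≤ 2 * s

theorem nu_mono {A B : Finset ℕ} (h : A ⊆ B) (s : ℕ) : nu A s ≤ nu B s := by
  apply Finset.card_le_card
  apply Finset.filter_subset_filter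
  exact Finset.product_subset_product h h

/-! ### the lower bound -/

/-- the extremal set -/
def Aset (S m : ℕ) : Finset ℕ := (Dom' (S + 1) m).image (fun p => pos (cc (S + 1) m) p + 1)

theorem Aset_admissible {S m : ℕ} (hS : 1 ≤ S) (hm : m ≤ 2 * S + 1) : Admissible (Aset S m) := by
  intro s hs
  refine le_trans ?_ (card_Q'_le hS hm hs)
  unfold nu
  have hsub : (((Aset S m) ×ˢ (Aset S m)).filter (fun p => p.1 + s = p.2)) ⊆
      (Q' S m s).image (fun q => (pos (cc (S + 1) m) q.1 + 1, pos (cc (S + 1) m) q.2 + 1)) := by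
    rintro ⟨x, y⟩ hxy
    rw [Finset.mem_filter, Finset.mem_product, Aset, Finset.mem_image, Finset.mem_image] at hxy
    obtain ⟨⟨⟨p, hp, hpx⟩, ⟨p', hp', hpy⟩⟩, hxy⟩ := hxy
    rw [Finset.mem_image]
    refine ⟨(p, p'), ?_, ?_⟩
    · rw [Q', Finset.mem_filter, Q, Finset.mem_filter, Finset.mem_product]
      have h1 : p ∈ Dom (S + 1) := (Finset.mem_filter.mp hp).1
      have h2 : p' ∈ Dom (S + 1) := (Finset.mem_filter.mp hp').1
      refine ⟨⟨⟨h1, h2⟩, ?_⟩, hp, hp'⟩
      simp only at hpx hpy hxy ⊢
      omega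
    · simp only at hpx hpy ⊢
      rw [hpx, hpy]
  exact (Finset.card_le_card hsub).trans Finset.card_image_le

theorem card_Dom'_ge {L m : ℕ} (hL : 1 ≤ L) (hm : m ≤ 2 * L - 1) :
    L * (L - 1) + m + 1 ≤ (Dom' L m).card := by
  have h1 : (Dom' L m).card =
      ∑ a ∈ Finset.range (L + 1), ((Dom' L m).filter (fun p => p.1 = a)).card := by
    apply Finset.card_eq_sum_card_fiberwise
    rintro ⟨a, t, e⟩ hp
    have hp := Finset.mem_coe.mp hp
    rw [mem_Dom'] at hp
    rw [Finset.mem_coe, Finset.mem_range]
    show a < L + 1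
    omega
  rw [h1, Finset.sum_range_succ]
  have h2 : ∑ a ∈ Finset.range L, 2 * a ≤
      ∑ a ∈ Finset.range L, ((Dom' L m).filter (fun p => p.1 = a)).card := by
    apply Finset.sum_le_sum
    intro a ha
    rw [Finset.mem_range] at ha
    calc 2 * a = (Finset.range a ×ˢ Finset.range 2).card := by
          rw [Finset.card_product, Finset.card_range, Finset.card_range]; omega
      _ ≤ _ := by
        apply Finset.card_le_card_of_injOn (fun q => (a, q))
        · rintro ⟨t, e⟩ hq
          rw [Finset.mem_coe, Finset.mem_product, Finset.mem_range, Finset.mem_range] at hq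
          rw [Finset.mem_coe, Finset.mem_filter, mem_Dom']
          refine ⟨⟨⟨ha.le, hq.1, hq.2⟩, Or.inl ha⟩, rfl⟩
        · intro q _ q' _ heq
          exact (Prod.mk.injEq _ _ _ _ ▸ heq).2
  have h3 : m + 1 ≤ ((Dom' L m).filter (fun p => p.1 = L)).card := by
    calc m + 1 = (Finset.range (m + 1)).card := (Finset.card_range _).symm
      _ ≤ _ := by
        apply Finset.card_le_card_of_injOn (fun j => (L, j / 2, j % 2))
        · intro j hj
          rw [Finset.mem_coe, Finset.mem_range] at hj
          rw [Finset.mem_coe, Finset.mem_filter, mem_Dom']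
          refine ⟨⟨⟨le_refl _, by omega, by omega⟩, Or.inr (by omega)⟩, rfl⟩
        · intro j _ j' _ heq
          simp only [Prod.mk.injEq, true_and] at heq
          omega
  rw [← Finset.mul_sum, mul_comm 2, Finset.sum_range_id_mul_two] at h2
  omega

theorem card_Aset {S m : ℕ} (hS : 1 ≤ S) (hm : m ≤ 2 * S + 1) :
    (S + 1) * S + m + 1 ≤ (Aset S m).card := by
  have h := good_cc S m hS
  unfold Aset
  rw [Finset.card_image_of_injOn]
  · have := card_Dom'_ge (L := S + 1) (m := m) (by omega) (by omega)
    have e : S + 1 - 1 = S := by omega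
    rw [e] at this
    exact this
  · rintro ⟨a, t, e⟩ hp ⟨a', t', e'⟩ hp' heq
    have hp := Finset.mem_coe.mp hp
    have hp' := Finset.mem_coe.mp hp'
    rw [mem_Dom'] at hp hp'
    obtain ⟨rfl, rfl, rfl⟩ := pos_inj h hp.1.1 hp.1.2.1 hp.1.2.2 hp'.1.2.1 hp'.1.2.2 hp'.1.1
      (by simp only at heq; omega)
    rfl

/-- closed form of the starting positions -/
theorem X_formula (S m : ℕ) (hm : m ≤ 2 * S + 1) (a : ℕ) (ha : a ≤ S + 1) :
    6 * ((X (cc (S + 1) m) a : ℕ) : ℤ) = 3 * (S : ℤ) * a * (a - 1) + ((a : ℤ) - 1) * a * (a + 1) +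
      3 * (if a + m / 2 < S + 1 then (0 : ℤ) else
        ((a : ℤ) * (a - 1) - ((S : ℤ) + 1 - (m / 2 : ℕ)) * ((S : ℤ) + 1 - (m / 2 : ℕ) - 1))) := by
  generalize hk : m / 2 = k
  induction a with
  | zero =>
    simp only [X, Nat.cast_zero, mul_zero, zero_mul, sub_zero]
    by_cases h : 0 + k < S + 1
    · rw [if_pos h]; ring
    · exfalso; omega
  | succ a ih =>
    have ih := ih (by omega)
    rw [X_succ]
    have hT := two_T a
    have hT' : (2 * T a : ℤ) = a * (a + 1) := by exact_mod_cast hT
    push_cast
    rcases lt_trichotomy (a + 1 + k) (S + 1) with h1 | h1 | h1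
    · rw [if_pos (by omega)] at ih
      rw [if_pos h1]
      have hc : cc (S + 1) m a = S := by
        unfold cc; rw [if_pos (by omega)]; omega
      rw [hc]
      nlinarith
    · rw [if_pos (by omega)] at ih
      rw [if_neg (by omega)]
      have hc : cc (S + 1) m a = S := by
        unfold cc; rw [if_pos (by omega)]; omega
      rw [hc]
      have h2 : ((a : ℤ) + 1) + (k : ℤ) = S + 1 := by exact_mod_cast h1
      have h3 : ((S : ℤ) + 1 - (k : ℤ)) = a + 1 := by linarith
      rw [h3]
      nlinarith
    · rw [if_neg (by omega)] at ih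
      rw [if_neg (by omega)]
      have hc : cc (S + 1) m a = S + 1 := by
        unfold cc; rw [if_neg (by omega)]
      rw [hc]
      push_cast
      nlinarith

theorem pos_le {S m : ℕ} (hS : 1 ≤ S) (hm : m ≤ 2 * S + 1) {p : ℕ × ℕ × ℕ}
    (hp : p ∈ Dom' (S + 1) m) :
    3 * pos (cc (S + 1) m) p ≤ (S + 1) * S * (2 * S + 1) + 3 * (S + 1) * m := by
  have h := good_cc S m hS
  obtain ⟨a, t, e⟩ := p
  rw [mem_Dom'] at hp
  obtain ⟨⟨h1, h2, h3⟩, h4⟩ := hp
  have hX := X_formula S m hm (S + 1) le_rfl
  have hlast : X (cc (S + 1) m) (S + 1) + (m / 2) * (S + 1) + T (m / 2) + (m % 2) * (S + 1) =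
      X (cc (S + 1) m) (S + 1) + (m / 2) * (S + 1) + T (m / 2) + (m % 2) * (S + 1) := rfl
  have hbound : pos (cc (S + 1) m) (a, t, e) ≤
      X (cc (S + 1) m) (S + 1) + (m / 2) * (S + 1) + T (m / 2) + (m % 2) * (S + 1) := by
    rcases Nat.lt_or_ge a (S + 1) with ha | ha
    · have e1 := pos_lt h h2 h3
      have e2 : X (cc (S + 1) m) (a + 1) ≤ X (cc (S + 1) m) (S + 1) := X_mono ha
      omega
    · have ha' : a = S + 1 := by omega
      subst ha'
      have h5 : 2 * t + e ≤ m := by omega
      rw [pos_def, h.top]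
      rcases Nat.lt_or_ge t (m / 2) with ht | ht
      · have e1 : T t ≤ T (m / 2) := T_mono ht.le
        have e2 : (t + 1) * (S + 1) ≤ (m / 2) * (S + 1) := Nat.mul_le_mul_right _ ht
        have e3 : (t + 1) * (S + 1) = t * (S + 1) + (S + 1) := by ring
        have e4 : e * (S + 1) ≤ S + 1 := by
          have : e = 0 ∨ e = 1 := by omega
          rcases this with rfl | rfl <;> omega
        have e5 : 0 ≤ (m % 2) * (S + 1) := Nat.zero_le _
        omega
      · have ht' : t = m / 2 := by omega
        subst ht'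
        have : e * (S + 1) ≤ (m % 2) * (S + 1) := Nat.mul_le_mul_right _ (by omega)
        omega
  have hT := two_T (m / 2)
  rw [if_neg (by omega)] at hX
  have hmm : m = 2 * (m / 2) + m % 2 := by omega
  generalize m / 2 = k at *
  generalize m % 2 = r at *
  generalize X (cc (S + 1) m) (S + 1) = x at *
  have hfin : 3 * (x + k * (S + 1) + T k + r * (S + 1)) =
      (S + 1) * S * (2 * S + 1) + 3 * (S + 1) * m := by
    rw [hmm]
    have hT' : (2 * T k : ℤ) = k * (k + 1) := by exact_mod_cast hT
    zify
    push_cast at hX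
    nlinarith
  omega

/-! ### the upper bound -/

theorem gap_ineq (L : ℕ) : ∀ A : Finset ℕ, ∀ lo M : ℕ, (∀ x ∈ A, lo ≤ x) → M ∈ A →
    (∀ x ∈ A, x ≤ M) →
    L * A.card + lo ≤ L + M + ∑ s ∈ Finset.Ico 1 L, (L - s) * nu A s := by
  intro A
  induction A using Finset.induction_on_max with
  | empty => intro lo M _ hM; simp at hM
  | insert a s hmax ih =>
    intro lo M hlo hM hle
    have haM : M = a := by
      rw [Finset.mem_insert] at hM
      rcases hM with h | h
      · exact h
      · have h1 := hmax M h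
        have h2 := hle a (Finset.mem_insert_self a s)
        omega
    subst haM
    have hnot : M ∉ s := fun h => lt_irrefl _ (hmax M h)
    rw [Finset.card_insert_of_notMem hnot]
    rcases s.eq_empty_or_nonempty with hs | hs
    · subst hs
      have := hlo M (Finset.mem_insert_self _ _)
      simp only [Finset.card_empty]
      have h0 : 0 ≤ ∑ s ∈ Finset.Ico 1 L, (L - s) * nu (insert M ∅) s := Nat.zero_le _
      omega
    · have h1 := ih lo (s.max' hs) (fun x hx => hlo x (Finset.mem_insert_of_mem hx))
        (s.max'_mem hs) (fun x hx => s.le_max' x hx)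
      set M' := s.max' hs with hM'
      have hM's : M' ∈ s := s.max'_mem hs
      have hlt : M' < M := hmax M' hM's
      have h2 : ∑ k ∈ Finset.Ico 1 L, (L - k) * (nu s k + if k = M - M' then 1 else 0) ≤
          ∑ k ∈ Finset.Ico 1 L, (L - k) * nu (insert M s) k := by
        apply Finset.sum_le_sum
        intro k _
        apply Nat.mul_le_mul_left
        split_ifs with hk
        · subst hk
          unfold nu
          have hss : (insert ((M', M) : ℕ × ℕ) ((s ×ˢ s).filter (fun p => p.1 + (M - M') = p.2))) ⊆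
              (((insert M s) ×ˢ (insert M s)).filter (fun p => p.1 + (M - M') = p.2)) := by
            intro p hp
            rw [Finset.mem_insert] at hp
            rcases hp with rfl | hp
            · rw [Finset.mem_filter, Finset.mem_product]
              refine ⟨⟨Finset.mem_insert_of_mem hM's, Finset.mem_insert_self _ _⟩, ?_⟩
              simp only; omega
            · rw [Finset.mem_filter, Finset.mem_product] at hp ⊢
              exact ⟨⟨Finset.mem_insert_of_mem hp.1.1, Finset.mem_insert_of_mem hp.1.2⟩, hp.2⟩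
          have hni : ((M', M) : ℕ × ℕ) ∉ ((s ×ˢ s).filter (fun p => p.1 + (M - M') = p.2)) := by
            intro hp
            rw [Finset.mem_filter, Finset.mem_product] at hp
            exact hnot hp.1.2
          have := Finset.card_le_card hss
          rw [Finset.card_insert_of_notMem hni] at this
          exact this
        · exact nu_mono (Finset.subset_insert _ _) k
      have h3 : ∑ k ∈ Finset.Ico 1 L, (L - k) * (nu s k + if k = M - M' then 1 else 0) =
          ∑ k ∈ Finset.Ico 1 L, (L - k) * nu s k +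
            ∑ k ∈ Finset.Ico 1 L, (if k = M - M' then (L - k) else 0) := by
        rw [← Finset.sum_add_distrib]
        apply Finset.sum_congr rfl
        intro k _
        split_ifs
        · ring
        · ring
      have h4 : L - (M - M') ≤ ∑ k ∈ Finset.Ico 1 L, (if k = M - M' then (L - k) else 0) := by
        rcases Nat.lt_or_ge (M - M') L with h5 | h5
        · rw [Finset.sum_ite_eq' (Finset.Ico 1 L) (M - M') (fun k => L - k), if_pos]
          rw [Finset.mem_Ico]; omega
        · omega
      have h6 : L * (s.card + 1) = L * s.card + L := by ring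
      rw [h6]
      omega

theorem sum_formula (L : ℕ) : 3 * ∑ s ∈ Finset.Ico 1 L, (L - s) * (2 * s) + L = L ^ 3 := by
  induction L with
  | zero => simp
  | succ n ih =>
    rcases Nat.eq_zero_or_pos n with h | h
    · subst h; simp
    · have h1 : ∑ s ∈ Finset.Ico 1 (n + 1), (n + 1 - s) * (2 * s) =
          ∑ s ∈ Finset.Ico 1 (n + 1), ((n - s) * (2 * s) + 2 * s) := by
        apply Finset.sum_congr rfl
        intro s hs
        rw [Finset.mem_Ico] at hs
        have : n + 1 - s = (n - s) + 1 := by omega
        rw [this]; ring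
      rw [h1, Finset.sum_add_distrib, Finset.sum_Ico_succ_top (by omega) (fun s => (n - s) * (2 * s))]
      have h2 : ∑ s ∈ Finset.Ico 1 (n + 1), 2 * s = n * (n + 1) := by
        have h3 : ∑ s ∈ Finset.range (n + 1), 2 * s = n * (n + 1) := by
          rw [← Finset.mul_sum, mul_comm 2, Finset.sum_range_id_mul_two]
          have : n + 1 - 1 = n := by omega
          rw [this, mul_comm]
        rw [Finset.range_eq_Ico, Finset.sum_eq_sum_Ico_succ_bot (by omega)] at h3
        simpa using h3
      rw [h2, Nat.sub_self, Nat.zero_mul, Nat.add_zero]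
      nlinarith

theorem upper {n L : ℕ} (hn : 1 ≤ n) (A : Finset ℕ) (hA : A ⊆ Finset.Icc 1 n)
    (hadm : Admissible A) : 3 * (L * A.card) + L ≤ 3 * L + 3 * (n - 1) + L ^ 3 := by
  rcases A.eq_empty_or_nonempty with he | he
  · subst he
    simp only [Finset.card_empty]
    omega
  · have h1 := gap_ineq L A 1 (A.max' he) (fun x hx => (Finset.mem_Icc.mp (hA hx)).1)
      (A.max'_mem he) (fun x hx => A.le_max' x hx)
    have h2 : A.max' he ≤ n := (Finset.mem_Icc.mp (hA (A.max'_mem he))).2
    have h3 : ∑ s ∈ Finset.Ico 1 L, (L - s) * nu A s ≤ ∑ s ∈ Finset.Ico 1 L, (L - s) * (2 * s) := by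
      apply Finset.sum_le_sum
      intro s hs
      rw [Finset.mem_Ico] at hs
      exact Nat.mul_le_mul_left _ (hadm s hs.1)
    have h4 := sum_formula L
    omega

end Pool.Agent.Helper73.Hick
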