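import Pool.Agent.Helper73.Hick.Split

/-!
Kernel evaluation of the sharp bound for small `S`.
-/

namespace Pool.Agent.Helper73.Hick

/-- summation by recursion -/
def sm (f : ℕ → ℕ) (n : ℕ) : ℕ := Nat.rec 0 (fun k ih => ih + f k) n

theorem sm_zero (f : ℕ → ℕ) : sm f 0 = 0 := rfl

theorem sm_succ (f : ℕ → ℕ) (n : ℕ) : sm f (n + 1) = sm f n + f n := rfl

theorem sm_eq (f : ℕ → ℕ) (n : ℕ) : sm f n = ∑ i ∈ Finset.range n, f i := by
  induction n with
  | zero => rfl
  | succ n ih => rw [sm_succ, ih, Finset.sum_range_succ]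

theorem sum_Icc_one (f : ℕ → ℕ) (D : ℕ) : ∑ d ∈ Finset.Icc 1 D, f d = sm (fun i => f (i + 1)) D := by
  induction D with
  | zero => rfl
  | succ n ih => rw [sm_succ, ← ih, Finset.sum_Icc_succ_top (by omega)]

theorem sum_Icc_two (f : ℕ → ℕ) (D : ℕ) :
    ∑ d ∈ Finset.Icc 2 (D + 1), f d = sm (fun i => f (i + 2)) D := by
  induction D with
  | zero => rfl
  | succ n ih => rw [sm_succ, ← ih, Finset.sum_Icc_succ_top (by omega)]

/-- all below `n` -/
def allB (p : ℕ → Bool) (n : ℕ) : Bool := Nat.rec true (fun k ih => ih && p k) n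

theorem allB_succ (p : ℕ → Bool) (n : ℕ) : allB p (n + 1) = (allB p n && p n) := rfl

theorem allB_spec (p : ℕ → Bool) (n : ℕ) (h : allB p n = true) : ∀ k < n, p k = true := by
  induction n with
  | zero => intro k hk; omega
  | succ n ih =>
    rw [allB_succ, Bool.and_eq_true] at h
    intro k hk
    rcases Nat.lt_or_ge k n with hlt | hge
    · exact ih h.1 k hlt
    · have : k = n := by omega
      rw [this]; exact h.2

/-- kernel version of `F1` -/
def k1 (S z d : ℕ) : ℕ :=
  bif Nat.ble (d * S + T d) z then 2 * (S + 1) - ((z - T d) / d + d) else 0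

theorem k1_eq (S z d : ℕ) : k1 S z d = F1 S z d := by
  unfold k1 F1
  by_cases h : d * S + T d ≤ z
  · rw [if_pos h, Nat.ble_eq_true_of_le h]; rfl
  · rw [if_neg h]
    have : Nat.ble (d * S + T d) z = false := by
      rw [← Bool.not_eq_true, Nat.ble_eq]; exact h
    rw [this]; rfl

/-- kernel version of `F2` -/
def k2 (S z d : ℕ) : ℕ :=
  (z + (S + 1) - (T d + d + 1)) / (d + 1) + 1 - (S + ((z - (S + 1 + T d) + (d - 1)) / d - S))

theorem k2_eq (S z d : ℕ) : k2 S z d = F2 S z d := by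
  unfold k2 F2
  have : ∀ x, S + (x - S) = max S x := by intro x; omega
  rw [this]

/-- kernel version of `F3` -/
def k3 (S z e : ℕ) : ℕ :=
  (z + (S + 1) - T e) / e + 1 -
    (S + ((z + e + 1 - (T e + (S + 1)) + (e - 2)) / (e - 1) - S))

theorem k3_eq (S z e : ℕ) : k3 S z e = F3 S z e := by
  unfold k3 F3
  have : ∀ x, S + (x - S) = max S x := by intro x; omega
  rw [this]

/-- kernel version of the indicator in `C4set` -/
def k4 (S z s u e e' : ℕ) : ℕ :=
  bif (Nat.ble (s + u) (z / S) && Nat.ble u S &&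
      Nat.ble (s * S + s * (s + (u - s)) + e' * (s + (u - s) + 1) + T u + u * S)
        (z + T (s - 1) + e * (s + (u - s))) &&
      Nat.ble (z + T (s - 1) + e * S)
        (s * (S + 1) + s * S + u * (S + 1) + T u + e' * (S + 1))) then 1 else 0

/-- kernel version of the count of `C4set` -/
def kC4 (S z : ℕ) : ℕ :=
  sm (fun i => sm (fun u => k4 S z (i + 1) u 0 0 + k4 S z (i + 1) u 0 1 +
    (bif Nat.beq i 0 then 0 else k4 S z (i + 1) u 1 0) + k4 S z (i + 1) u 1 1) (z / S + 1)) (z / S)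

theorem kC4_eq (S z : ℕ) : (C4set S z).card = kC4 S z := by
  have hk4 : ∀ s u e e', k4 S z s u e e' = if (s + u ≤ z / S ∧ u ≤ S ∧
      s * S + s * (max s u) + e' * (max s u + 1) + T u + u * S ≤
        z + T (s - 1) + e * (max s u) ∧
      z + T (s - 1) + e * S ≤
        s * (S + 1) + s * S + u * (S + 1) + T u + e' * (S + 1)) then 1 else 0 := by
    intro s u e e'
    have hmax : s + (u - s) = max s u := by omega
    unfold k4
    rw [hmax, cond_eq_ite]
    apply if_congr _ rfl rfl
    simp only [Bool.and_eq_true, Nat.ble_eq, and_assoc]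
  rw [C4set, Finset.card_filter, Finset.sum_product, kC4, sum_Icc_one]
  congr 1
  funext i
  rw [Finset.sum_product, sm_eq]
  apply Finset.sum_congr rfl
  intro u _
  rw [Finset.sum_product, Finset.sum_range_succ, Finset.sum_range_one, Finset.sum_range_succ,
    Finset.sum_range_one, Finset.sum_range_succ, Finset.sum_range_one]
  simp only [hk4]
  have hone : Nat.beq i 0 = decide (i = 0) := by
    by_cases h : i = 0
    · subst h; rfl
    · rw [decide_eq_false h, ← Bool.not_eq_true, Nat.beq_eq]; exact h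
  by_cases h : i = 0
  · subst h
    simp
  · rw [hone, decide_eq_false h]
    have h' : ¬ (i + 1 = 1) := by omega
    simp only [h', false_and, not_false_eq_true, true_and, cond_false]
    omega

/-- kernel version of `F5` -/
def k5 (S z : ℕ) : ℕ :=
  sm (fun u => bif (Nat.ble ((u + 1) * S + T u) z && Nat.ble z ((u + 1) * (S + 1) + T u)) then
    S + 1 - (1 + (u - 1)) else 0) (z / S + 1)

theorem k5_eq (S z : ℕ) : k5 S z = F5 S z := by
  unfold k5 F5
  rw [sm_eq]
  apply Finset.sum_congr rfl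
  intro u _
  have hmax : 1 + (u - 1) = max u 1 := by omega
  rw [hmax, cond_eq_ite]
  apply if_congr _ rfl rfl
  simp only [Bool.and_eq_true, Nat.ble_eq]

/-- kernel version of `F6` -/
def k6 (S z : ℕ) : ℕ :=
  sm (fun a => bif Nat.blt ((a + 1) * S + T (a + 1)) z then 2 * a else 0) S

theorem k6_eq (S z : ℕ) : k6 S z = F6 S z := by
  unfold k6 F6
  rw [sm_eq]
  apply Finset.sum_congr rfl
  intro u _
  rw [cond_eq_ite]
  apply if_congr _ rfl rfl
  simp only [Nat.blt_eq]

/-- the bound evaluated by the kernel -/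
def kB (S z : ℕ) : ℕ :=
  sm (fun i => 2 * k1 S z (i + 1) + k2 S z (i + 1) + k3 S z (i + 2)) (z / S) +
  (bif (Nat.ble S 9 || Nat.ble z (2 * S + 7)) then kC4 S z else
    4 * (T (z / S) - T ((z + S) / (2 * (S + 1)) - 1))) + k5 S z + k6 S z

theorem card_Q_kB {S : ℕ} {c : ℕ → ℕ} (h : Good S c) {z : ℕ} (hz : S + 1 < z) :
    (Q c (S + 1) z).card ≤ kB S z := by
  have h1 := card_Q_sharp h hz
  have h2 : sm (fun i => 2 * k1 S z (i + 1) + k2 S z (i + 1) + k3 S z (i + 2)) (z / S) =
      ∑ d ∈ Finset.Icc 1 (z / S), 2 * F1 S z d + ∑ d ∈ Finset.Icc 1 (z / S), F2 S z d +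
      ∑ d ∈ Finset.Icc 2 (z / S + 1), F3 S z d := by
    rw [sum_Icc_one, sum_Icc_one, sum_Icc_two, sm_eq, sm_eq, sm_eq, sm_eq,
      ← Finset.sum_add_distrib, ← Finset.sum_add_distrib]
    simp only [k1_eq, k2_eq, k3_eq]
  have h3 : (C4set S z).card ≤ (bif (Nat.ble S 9 || Nat.ble z (2 * S + 7)) then kC4 S z else
    4 * (T (z / S) - T ((z + S) / (2 * (S + 1)) - 1))) := by
    cases (Nat.ble S 9 || Nat.ble z (2 * S + 7)) with
    | true => exact (kC4_eq S z).le
    | false => exact card_C4set_le' h.posS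
  unfold kB
  rw [h2, k5_eq, k6_eq]
  omega

/-- the check for one `S`: all `z` with `S + 1 < z` and `2 z < (S+1)(S+2)` -/
def chk (S : ℕ) : Bool :=
  allB (fun z => Nat.ble z (S + 1) || Nat.ble (kB S z) (2 * z)) ((S + 1) * (S + 2) / 2)

theorem chk_all : allB (fun i => chk (i + 1)) 34 = true := by decide +kernel

end Pool.Agent.Helper73.Hick
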