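import Pool.Agent.Helper73.Hick.Mid

/-!
The general estimate for large `S` and `z ≥ 4 S`.
-/

namespace Pool.Agent.Helper73.Hick

theorem F1_small {S z d : ℕ} (hS : 3 ≤ S) (hd : 1 ≤ d) (h : 2 * d + 1 ≤ z / S) : F1 S z d = 0 := by
  unfold F1
  split_ifs with hc
  · have h1 : (2 * d + 1) * S ≤ z :=
      (Nat.mul_le_mul_right S h).trans (Nat.div_mul_le_self z S)
    have h2 : z - T d < d * ((z - T d) / d + 1) := Nat.lt_mul_div_succ _ (by omega)
    generalize (z - T d) / d = q at h2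
    have h3 := two_T d
    have h4 : 2 * (S + 1) ≤ q + d := by
      by_contra hcon
      push Not at hcon
      have h5 : d * (q + 1) + d * d ≤ d * (2 * S + 2) := by
        have : q + 1 + d ≤ 2 * S + 2 := by omega
        calc d * (q + 1) + d * d = d * (q + 1 + d) := by ring
          _ ≤ _ := Nat.mul_le_mul_left _ this
      have h6 : z < d * (q + 1) + T d := by omega
      have h7 : (2 * d + 1) * S = 2 * (d * S) + S := by ring
      have h8 : d * (2 * S + 2) = 2 * (d * S) + 2 * d := by ring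
      rw [h7] at h1
      rw [h8] at h5
      have h9 : d * (d + 1) = d * d + d := by ring
      rw [h9] at h3
      -- 2 (S + d*d) < 4 d + 2 T d = 4 d + d*d + d
      have h10 : 2 * S + d * d < 5 * d := by omega
      have h11 : 5 * d ≤ 6 + d * d := by
        rcases Nat.lt_or_ge d 3 with h12 | h12
        · interval_cases d <;> omega
        · nlinarith
      omega
    omega
  · rfl

theorem F1_bound {S z d : ℕ} (hd : 1 ≤ d) (hdD : d ≤ z / S) (hDS : z / S ≤ S) :
    2 * (z / S) * F1 S z d ≤ (2 * S - z / S) * d + 7 * (z / S) := by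
  unfold F1
  split_ifs with hc
  · have h1 : (z / S) * S ≤ z := Nat.div_mul_le_self z S
    have h2 : z - T d < d * ((z - T d) / d + 1) := Nat.lt_mul_div_succ _ (by omega)
    generalize (z - T d) / d = q at h2
    generalize z / S = D at h1 hdD hDS
    have h3 := two_T d
    rcases Nat.lt_or_ge (2 * (S + 1)) (q + d) with h4 | h4
    · have : 2 * (S + 1) - (q + d) = 0 := by omega
      rw [this]; omega
    · obtain ⟨F, hF⟩ := Nat.exists_eq_add_of_le h4
      have h5 : 2 * (S + 1) - (q + d) = F := by omega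
      rw [h5]
      have h6 : z < d * (q + 1) + T d := by omega
      have h7 : D ≤ 2 * S := by omega
      zify [h7] at *
      have h8 : (F : ℤ) = 2 * (S + 1) - q - d := by linarith
      -- d * F bound
      have h9 : 2 * ((d : ℤ) * F) ≤ 2 * (2 * S * d - D * S) + 7 * d - d * d - 2 := by
        rw [h8]; nlinarith
      have h10 : (d : ℤ) * (2 * D * F) ≤ d * ((2 * S - D) * d + 7 * D) := by
        have e1 : (0 : ℤ) ≤ S * ((D : ℤ) - d) ^ 2 := by positivity
        nlinarith
      exact le_of_mul_le_mul_left h10 (by omega)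
  · omega

theorem two_C4 {S z : ℕ} (hS : 1 ≤ S) (hDS : z / S ≤ S) :
    2 * (C4set S z).card ≤ 3 * (z / S) ^ 2 + 8 * (z / S) := by
  have h1 := card_C4set_le' (S := S) hS (z := z)
  have h2 : (z / S) * S ≤ z := Nat.div_mul_le_self z S
  generalize z / S = D at *
  obtain ⟨h, hh⟩ : ∃ h, D = 2 * h ∨ D = 2 * h + 1 := ⟨D / 2, by omega⟩
  have h3 : h ≤ (z + S) / (2 * (S + 1)) := by
    rw [Nat.le_div_iff_mul_le (by omega)]
    rcases hh with rfl | rfl <;> nlinarith
  have h4 : T (h - 1) ≤ T ((z + S) / (2 * (S + 1)) - 1) := T_mono (by omega)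
  have h5 : (C4set S z).card ≤ 4 * (T D - T (h - 1)) := by omega
  have h6 : 4 * (T D - T (h - 1)) = 4 * T D - 4 * T (h - 1) := by omega
  have h7 := two_T D
  have h8 := two_T (h - 1)
  rcases Nat.eq_zero_or_pos h with h0 | h0
  · subst h0
    rcases hh with rfl | rfl
    · simp [T] at h5 ⊢
      omega
    · simp [T] at h5 ⊢
      omega
  · obtain ⟨k, rfl⟩ : ∃ k, h = k + 1 := ⟨h - 1, by omega⟩
    have h9 : k + 1 - 1 = k := by omega
    rw [h9] at h8 h6 h5
    have h10 : T k ≤ T D := T_mono (by omega)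
    have h11 : (C4set S z).card + 4 * T k ≤ 4 * T D := by omega
    clear h5 h6
    rcases hh with rfl | rfl
    · nlinarith
    · nlinarith

theorem sum_F1 {S z : ℕ} (hS : 3 ≤ S) (hDS : z / S ≤ S) (hD : 1 ≤ z / S) :
    16 * (z / S) * ∑ d ∈ Finset.Icc 1 (z / S), F1 S z d ≤
      (2 * S - z / S) * (3 * (z / S) ^ 2 + 6 * (z / S)) + 28 * (z / S) * (z / S + 2) := by
  have h1 : ∑ d ∈ Finset.Icc 1 (z / S), F1 S z d =
      ∑ d ∈ Finset.Icc ((z / S + 1) / 2) (z / S), F1 S z d := by
    symm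
    apply Finset.sum_subset
    · apply Finset.Icc_subset_Icc_left; omega
    · intro d hd hd'
      rw [Finset.mem_Icc] at hd hd'
      exact F1_small hS hd.1 (by omega)
  rw [h1]
  have h2 : 2 * (z / S) * ∑ d ∈ Finset.Icc ((z / S + 1) / 2) (z / S), F1 S z d ≤
      (2 * S - z / S) * (∑ d ∈ Finset.Icc ((z / S + 1) / 2) (z / S), d) +
        7 * (z / S) * (z / S + 1 - (z / S + 1) / 2) := by
    rw [Finset.mul_sum, Finset.mul_sum]
    calc _ ≤ ∑ d ∈ Finset.Icc ((z / S + 1) / 2) (z / S), ((2 * S - z / S) * d + 7 * (z / S)) := by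
          apply Finset.sum_le_sum
          intro d hd
          rw [Finset.mem_Icc] at hd
          exact F1_bound (by omega) hd.2 hDS
      _ = _ := by
          rw [Finset.sum_add_distrib, Finset.sum_const, Nat.card_Icc, smul_eq_mul]
          ring
  have h3 := sum_Icc_T ((z / S + 1) / 2) (z / S) (by omega)
  generalize ∑ d ∈ Finset.Icc ((z / S + 1) / 2) (z / S), d = A at h2 h3
  generalize ∑ d ∈ Finset.Icc ((z / S + 1) / 2) (z / S), F1 S z d = B at h2
  generalize z / S = D at *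
  have h7 := two_T D
  have h8 := two_T ((D + 1) / 2 - 1)
  have hA : 8 * A ≤ 3 * D ^ 2 + 6 * D := by
    obtain ⟨h, hh⟩ : ∃ h, D = 2 * h + 1 ∨ D = 2 * (h + 1) := ⟨(D - 1) / 2, by omega⟩
    rcases hh with rfl | rfl
    · have e1 : (2 * h + 1 + 1) / 2 - 1 = h := by omega
      rw [e1] at h8 h3
      nlinarith
    · have e1 : (2 * (h + 1) + 1) / 2 - 1 = h := by omega
      rw [e1] at h8 h3
      nlinarith
  have hn : 2 * (D + 1 - (D + 1) / 2) ≤ D + 2 := by omega
  generalize D + 1 - (D + 1) / 2 = n at *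
  have h9 : (2 * S - D) * (8 * A) ≤ (2 * S - D) * (3 * D ^ 2 + 6 * D) :=
    Nat.mul_le_mul_left _ hA
  have h10 : 28 * D * (2 * n) ≤ 28 * D * (D + 2) := Nat.mul_le_mul_left _ hn
  calc 16 * D * B = 8 * (2 * D * B) := by ring
    _ ≤ 8 * ((2 * S - D) * A + 7 * D * n) := Nat.mul_le_mul_left _ h2
    _ = (2 * S - D) * (8 * A) + 28 * D * (2 * n) := by ring
    _ ≤ _ := Nat.add_le_add h9 h10

theorem card_Q_large {S : ℕ} {c : ℕ → ℕ} (h : Good S c) {z : ℕ} (hS : 130 ≤ S)
    (hz : 4 * S ≤ z) (hz2 : 2 * z < (S + 1) * (S + 2)) :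
    (Q c (S + 1) z).card ≤ 2 * z := by
  have h0 := card_Q_crude h (z := z) (by omega)
  have hD4 : 4 ≤ z / S := by rw [Nat.le_div_iff_mul_le (by omega)]; exact hz
  have h1 : (z / S) * S ≤ z := Nat.div_mul_le_self z S
  have hDle : 2 * (z / S) ≤ S + 3 := by
    by_contra hcon
    push Not at hcon
    have : (S + 4) * S ≤ 2 * (z / S) * S := Nat.mul_le_mul_right _ hcon
    nlinarith
  have h2 := two_C4 (S := S) (z := z) (by omega) (by omega)
  have h3 := sum_F1 (S := S) (z := z) (by omega) (by omega) (by omega)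
  rw [← Finset.mul_sum] at h0
  generalize ∑ d ∈ Finset.Icc 1 (z / S), F1 S z d = B at *
  generalize (C4set S z).card = C at *
  generalize (Q c (S + 1) z).card = N at *
  generalize z / S = D at *
  have h4 : D ≤ 2 * S := by omega
  have h5 : 1 ≤ D := by omega
  zify [h4, h5] at *
  have hkey : (36 : ℤ) * S + 17 * D ^ 2 + 46 * D + 64 ≤ 10 * D * S := by
    have e1 : (0 : ℤ) ≤ (D - 4) * (S + 3 - 2 * D) :=
      mul_nonneg (by linarith) (by linarith)
    have e2 : (0 : ℤ) ≤ (D - 4) * (S - 130) := mul_nonneg (by linarith) (by linarith)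
    nlinarith
  have hfin : (8 : ℤ) * D * (2 * B + (2 * S + 1) + C + S + D * (D - 1)) ≤ 8 * D * (2 * (D * S)) := by
    have e3 : (8 : ℤ) * D * C ≤ 4 * D * (3 * D ^ 2 + 8 * D) := by nlinarith
    have e4 : (0 : ℤ) ≤ D * (10 * D * S - (36 * S + 17 * D ^ 2 + 46 * D + 64)) :=
      mul_nonneg (by linarith) (by linarith)
    nlinarith
  have hfin2 : (2 * B + (2 * S + 1) + C + S + D * (D - 1) : ℤ) ≤ 2 * (D * S) :=
    le_of_mul_le_mul_left hfin (by linarith)
  linarith

end Pool.Agent.Helper73.Hick
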