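import Pool.Agent.Helper73.Hick.Kern

/-!
The crude bound: kernel evaluation for `35 ≤ S ≤ 131` (all `z ≥ 4 S` at once in blocks),
and a general estimate for `S ≥ 131`.
-/

namespace Pool.Agent.Helper73.Hick

/-- kernel bound of `F1` for all `z` with `z / S = D` -/
def kd1 (S D d : ℕ) : ℕ :=
  bif Nat.blt (d * S + T d) ((D + 1) * S) then 2 * (S + 1) - ((D * S - T d) / d + d) else 0

theorem F1_le_kd1 (S z d : ℕ) (hS : 1 ≤ S) : F1 S z d ≤ kd1 S (z / S) d := by
  unfold F1 kd1
  have h1 : (z / S) * S ≤ z := Nat.div_mul_le_self z S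
  have h2 : z < (z / S + 1) * S := by
    rw [mul_comm]; exact Nat.lt_mul_div_succ z (by omega)
  by_cases h : d * S + T d ≤ z
  · rw [if_pos h]
    have : Nat.blt (d * S + T d) ((z / S + 1) * S) = true := by
      rw [Nat.blt_eq]; omega
    rw [this, cond_true]
    have h3 : ((z / S) * S - T d) / d ≤ (z - T d) / d := Nat.div_le_div_right (by omega)
    omega
  · rw [if_neg h]; omega

/-- kernel bound of everything for all `z` with `z / S = D` -/
def kD (S D : ℕ) : ℕ :=
  sm (fun i => 2 * kd1 S D (i + 1)) D + (2 * S + 1) +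
    4 * (T D - T ((D * S + S) / (2 * (S + 1)) - 1)) + S + D * (D - 1)

theorem card_Q_kD {S : ℕ} {c : ℕ → ℕ} (h : Good S c) {z : ℕ} (hz : S + 1 < z) :
    (Q c (S + 1) z).card ≤ kD S (z / S) := by
  have hS := h.posS
  have h1 := card_Q_crude h hz
  have h2 : ∑ d ∈ Finset.Icc 1 (z / S), 2 * F1 S z d ≤ sm (fun i => 2 * kd1 S (z / S) (i + 1)) (z / S) := by
    rw [sum_Icc_one, sm_eq, sm_eq]
    apply Finset.sum_le_sum
    intro i _
    have := F1_le_kd1 S z (i + 1) hS
    omega
  have h3 := card_C4set_le' (S := S) hS (z := z)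
  have h4 : T ((z / S * S + S) / (2 * (S + 1)) - 1) ≤ T ((z + S) / (2 * (S + 1)) - 1) := by
    apply T_mono
    have h5 : (z / S) * S ≤ z := Nat.div_mul_le_self z S
    have : (z / S * S + S) / (2 * (S + 1)) ≤ (z + S) / (2 * (S + 1)) :=
      Nat.div_le_div_right (by omega)
    omega
  unfold kD
  omega

/-- the check for one `S` -/
def chkD (S : ℕ) : Bool :=
  allB (fun D => Nat.ble D 3 || Nat.ble (kD S D) (2 * (D * S))) ((S + 1) * (S + 2) / 2 / S + 1)

theorem chkD_all : allB (fun i => chkD (i + 35)) 98 = true := by decide +kernel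

end Pool.Agent.Helper73.Hick
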