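import Pool.Agent.Helper73.Hick.Total

/-!
Distances `z ≤ S + 1`, for the truncated sets.
-/

namespace Pool.Agent.Helper73.Hick

variable {S : ℕ} {c : ℕ → ℕ}

theorem classify (h : Good S c) {z : ℕ} (hz1 : 1 ≤ z) (hz : z ≤ S + 1) {a t e a' t' e' : ℕ}
    (hq : (((a, t, e), (a', t', e')) : (ℕ × ℕ × ℕ) × (ℕ × ℕ × ℕ)) ∈ Q c (S + 1) z) :
    (a' = a ∧ t' = t ∧ e = 0 ∧ e' = 1 ∧ z = a) ∨
    (e = 1 ∧ e' = 0 ∧ z + a = c a + t + 1 ∧
      ((a' = a ∧ t' = t + 1) ∨ (a' = a + 1 ∧ t' = 0 ∧ t + 1 = a))) ∨
    (z = S + 1 ∧ c a = S ∧ t = 0 ∧ e = e' ∧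
      ((a' = a ∧ t' = 1) ∨ (a = 1 ∧ a' = 2 ∧ t' = 0 ∧ e = 0))) := by
  have hS := h.posS
  have hq' := hq
  rw [mem_Q] at hq'
  obtain ⟨⟨h1, h2, h3⟩, ⟨h4, h5, h6⟩, h7⟩ := hq'
  have hle : a ≤ a' := run_le h (t := t) (e := e) h5 h6 (by rw [pos_def, pos_def]; omega)
  have hca := h.ge a
  have hca' := h.le a
  have he : e = 0 ∨ e = 1 := by omega
  have he' : e' = 0 ∨ e' = 1 := by omega
  rcases Nat.lt_or_ge a a' with hlt | hge
  · rcases Nat.lt_or_ge (a + 1) a' with hlt2 | hge2
    · -- far
      exfalso
      have e1 := pos_lt h h2 h3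
      rw [pos_def] at e1
      have e2 : X c (a + 2) ≤ X c a' := X_mono hlt2
      have e3 : X c (a + 2) = X c (a + 1) + (a + 1) * c (a + 1) + T (a + 1) := X_succ _
      have e4 : (a + 1) * S ≤ (a + 1) * c (a + 1) := Nat.mul_le_mul_left _ (h.ge _)
      have e5 : 2 * S ≤ (a + 1) * S := Nat.mul_le_mul_right _ (by omega)
      have e6 : a + 1 ≤ T (a + 1) := le_T _
      omega
    · have : a' = a + 1 := by omega
      subst this
      obtain ⟨s, g1, g2, g3, g4, g5, g6, g7⟩ := key4 h hq
      have hc1 := h.ge (a + 1)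
      rcases Nat.lt_or_ge s 2 with hs | hs
      · have hs1 : s = 1 := by omega
        subst hs1
        have e0 : T (1 - 1) = 0 := rfl
        rw [e0] at g7
        rcases Nat.eq_zero_or_pos t' with hu | hu
        · subst hu
          have e0 : T 0 = 0 := rfl
          rw [e0] at g7
          rcases he with rfl | rfl <;> rcases he' with rfl | rfl
          · right; right
            refine ⟨by omega, by omega, by omega, rfl, Or.inr ⟨by omega, by omega, rfl, rfl⟩⟩
          · exfalso; omega
          · right; left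
            refine ⟨rfl, rfl, by omega, Or.inr ⟨rfl, rfl, by omega⟩⟩
          · exfalso; omega
        · exfalso
          have e1 : S ≤ t' * c (a + 1) := by nlinarith
          have e2 := le_T t'
          rcases he with rfl | rfl <;> omega
      · exfalso
        have hTs := T_pred_le s g1
        obtain ⟨k, rfl⟩ : ∃ k, s = k + 2 := ⟨s - 2, by omega⟩
        have e1 : k + 2 - 1 = k + 1 := by omega
        rw [e1] at hTs g7
        have e2 : (k + 1) * (k + 2) ≤ (k + 1) * a := Nat.mul_le_mul_left _ (by omega)
        have e3 : (k + 2) * a = (k + 1) * a + a := by ring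
        have e4 : e * a ≤ a := by rcases he with rfl | rfl <;> omega
        have e5 : 2 * S ≤ (k + 2) * c a := Nat.mul_le_mul (by omega) hca
        have e6 := two_T (k + 1)
        have e7 : (k + 1) * (k + 1 + 1) = (k + 1) * (k + 2) := rfl
        have e8 := le_T (k + 1)
        omega
  · have : a' = a := by omega
    subst this
    rcases lt_trichotomy t t' with hlt | heq | hgt
    · obtain ⟨d, rfl⟩ := Nat.exists_eq_add_of_lt hlt
      have e1 : T (t + d + 1) = T t + T (d + 1) + t * (d + 1) := by rw [add_assoc, T_add]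
      rw [e1] at h7
      have e2 : (t + d + 1) * c a' = t * c a' + (d + 1) * c a' := by ring
      rw [e2] at h7
      have e3 := le_T (d + 1)
      rcases Nat.eq_zero_or_pos d with hd | hd
      · subst hd
        rw [T1] at *
        rcases he with rfl | rfl <;> rcases he' with rfl | rfl
        · right; right
          refine ⟨by omega, by omega, by omega, rfl, Or.inl ⟨rfl, by omega⟩⟩
        · exfalso; omega
        · right; left
          refine ⟨rfl, rfl, by omega, Or.inl ⟨rfl, by omega⟩⟩
        · right; right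
          refine ⟨by omega, by omega, by omega, rfl, Or.inl ⟨rfl, by omega⟩⟩
      · exfalso
        have e5 : 2 * S ≤ (d + 1) * c a' := Nat.mul_le_mul (by omega) hca
        have e6 : T 2 ≤ T (d + 1) := T_mono (by omega)
        rw [T2] at e6
        have e7 : 0 ≤ t * (d + 1) := Nat.zero_le _
        rcases he with rfl | rfl <;> rcases he' with rfl | rfl <;> omega
    · subst heq
      rcases he with rfl | rfl <;> rcases he' with rfl | rfl
      · exfalso; omega
      · left
        refine ⟨rfl, rfl, rfl, rfl, by omega⟩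
      · exfalso; omega
      · exfalso; omega
    · exfalso
      obtain ⟨d, rfl⟩ := Nat.exists_eq_add_of_lt hgt
      have e1 : T (t' + d + 1) = T (t' + d) + (t' + d + 1) := T_succ _
      have e2 : T t' ≤ T (t' + d) := T_mono (by omega)
      have e3 : (t' + d + 1) * c a' = t' * c a' + d * c a' + c a' := by ring
      rw [e1, e3] at h7
      rcases he' with rfl | rfl <;> omega

/-- the top values -/
def cc (L m a : ℕ) : ℕ := if a + m / 2 < L then L - 1 else L

theorem good_cc (S m : ℕ) (hS : 1 ≤ S) : Good S (cc (S + 1) m) := by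
  refine ⟨hS, ?_, ?_, ?_⟩
  · intro a
    unfold cc
    split_ifs
    · left; omega
    · right; rfl
  · intro a b hab
    unfold cc
    split_ifs <;> omega
  · unfold cc
    rw [if_neg (by omega)]

/-- truncated index set -/
def Dom' (L m : ℕ) : Finset (ℕ × ℕ × ℕ) :=
  (Dom L).filter (fun p => p.1 < L ∨ 2 * p.2.1 + p.2.2 ≤ m)

theorem mem_Dom' {L m a t e : ℕ} : (a, t, e) ∈ Dom' L m ↔
    (a ≤ L ∧ t < a ∧ e < 2) ∧ (a < L ∨ 2 * t + e ≤ m) := by
  rw [Dom', Finset.mem_filter, mem_Dom]

/-- pairs of the truncated set -/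
def Q' (S m z : ℕ) : Finset ((ℕ × ℕ × ℕ) × (ℕ × ℕ × ℕ)) :=
  (Q (cc (S + 1) m) (S + 1) z).filter (fun q => q.1 ∈ Dom' (S + 1) m ∧ q.2 ∈ Dom' (S + 1) m)

theorem card_Q'_small {S m z : ℕ} (hS : 1 ≤ S) (hm : m ≤ 2 * S + 1) (hz1 : 1 ≤ z) (hz : z ≤ S) :
    (Q' S m z).card ≤ 2 * z := by
  have h := good_cc S m hS
  have hsub : Q' S m z ⊆ (Q' S m z).filter (fun q => q.1.2.2 = 0) ∪
      (Q' S m z).filter (fun q => q.1.2.2 = 1) := by
    rintro ⟨⟨a, t, e⟩, ⟨a', t', e'⟩⟩ hq
    have hq' := hq
    rw [Q', Finset.mem_filter] at hq'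
    have h1 := hq'.1
    rw [mem_Q] at h1
    rw [Finset.mem_union, Finset.mem_filter, Finset.mem_filter]
    have : e = 0 ∨ e = 1 := by omega
    rcases this with rfl | rfl
    · left; exact ⟨hq, rfl⟩
    · right; exact ⟨hq, rfl⟩
  have hA : ((Q' S m z).filter (fun q => q.1.2.2 = 0)).card ≤ z := by
    calc _ ≤ (Finset.range z).card := by
          apply Finset.card_le_card_of_injOn (fun q => q.1.2.1)
          · rintro ⟨⟨a, t, e⟩, ⟨a', t', e'⟩⟩ hq
            have hq := Finset.mem_coe.mp hq
            rw [Finset.mem_filter, Q', Finset.mem_filter] at hq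
            obtain ⟨⟨hq, -⟩, he⟩ := hq
            simp only at he
            subst he
            have h2 := hq
            rw [mem_Q] at h2
            rw [Finset.mem_coe, Finset.mem_range]
            rcases classify h hz1 (by omega) hq with h3 | h3 | h3
            · show t < z
              omega
            · omega
            · omega
          · rintro ⟨⟨a, t, e⟩, ⟨a', t', e'⟩⟩ hq ⟨⟨a2, t2, e2⟩, ⟨a2', t2', e2'⟩⟩ hq2 heq
            have hq := Finset.mem_coe.mp hq
            have hq2 := Finset.mem_coe.mp hq2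
            rw [Finset.mem_filter, Q', Finset.mem_filter] at hq hq2
            obtain ⟨⟨hq, -⟩, he⟩ := hq
            obtain ⟨⟨hq2, -⟩, he2⟩ := hq2
            simp only at he he2 heq
            subst he he2 heq
            rcases classify h hz1 (by omega) hq with h3 | h3 | h3
            · rcases classify h hz1 (by omega) hq2 with h4 | h4 | h4
              · obtain ⟨r1, r2, r3, r4, r5⟩ := h3
                obtain ⟨s1, s2, s3, s4, s5⟩ := h4
                subst r1 r2 r4 s1 s2 s4
                have : a' = a2' := by omega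
                subst this
                rfl
              · omega
              · omega
            · omega
            · omega
      _ = z := Finset.card_range z
  have hB : ((Q' S m z).filter (fun q => q.1.2.2 = 1)).card ≤ z := by
    have key : ∀ q ∈ (Q' S m z).filter (fun q => q.1.2.2 = 1), ∃ a t a' t',
        q = ((a, t, 1), (a', t', 0)) ∧ a ≤ S + 1 ∧ (t < a ∧ t' < a') ∧ (a' = S + 1 → 2 * t' ≤ m) ∧
        z + a = cc (S + 1) m a + t + 1 ∧
        ((a' = a ∧ t' = t + 1) ∨ (a' = a + 1 ∧ t' = 0 ∧ t + 1 = a)) := by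
      rintro ⟨⟨a, t, e⟩, ⟨a', t', e'⟩⟩ hq
      rw [Finset.mem_filter, Q', Finset.mem_filter] at hq
      obtain ⟨⟨hq, h5, h6⟩, he⟩ := hq
      simp only at he h5 h6
      subst he
      rw [mem_Dom'] at h6 h5
      rcases classify h hz1 (by omega) hq with h3 | h3 | h3
      · omega
      · obtain ⟨-, rfl, h4, h5'⟩ := h3
        exact ⟨a, t, a', t', rfl, h5.1.1, ⟨h5.1.2.1, h6.1.2.1⟩, by omega, h4, h5'⟩
      · omega
    calc _ ≤ (Finset.Ico (S + 1 - z) (S + 1)).card := by
          apply Finset.card_le_card_of_injOn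
            (fun q => if q.1.1 = S + 1 then S + 1 - z else q.1.1)
          · intro q hq
            obtain ⟨a, t, a', t', rfl, h1, h2, h3, h4, h5⟩ := key q (Finset.mem_coe.mp hq)
            have hg := h.ge a
            rw [Finset.mem_coe, Finset.mem_Ico]
            simp only
            split_ifs with hc
            · omega
            · omega
          · intro q hq q' hq' heq
            obtain ⟨a, t, a', t', rfl, h1, h2, h3, h4, h5⟩ := key q (Finset.mem_coe.mp hq)
            obtain ⟨b, r, b', r', rfl, k1, k2, k3, k4, k5⟩ := key q' (Finset.mem_coe.mp hq')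
            have hg := h.ge a
            have hg2 := h.ge b
            have hab : a = b := by
              simp only at heq
              by_cases ha : a = S + 1 <;> by_cases hb : b = S + 1
              · omega
              · exfalso
                rw [if_pos ha, if_neg hb] at heq
                subst ha
                unfold cc at h4 k4
                rw [if_neg (by omega)] at h4
                have hz' : z = t + 1 := by omega
                have hzm : 2 * (t + 1) ≤ m := by omega
                rw [if_neg (by omega)] at k4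
                omega
              · exfalso
                rw [if_neg ha, if_pos hb] at heq
                subst hb
                unfold cc at h4 k4
                rw [if_neg (by omega)] at k4
                have hz' : z = r + 1 := by omega
                have hzm : 2 * (r + 1) ≤ m := by omega
                rw [if_neg (by omega)] at h4
                omega
              · rw [if_neg ha, if_neg hb] at heq
                exact heq
            subst hab
            have : t = r := by omega
            subst this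
            have : a' = b' ∧ t' = r' := by omega
            obtain ⟨rfl, rfl⟩ := this
            rfl
      _ = z := by rw [Nat.card_Ico]; omega
  have := (Finset.card_le_card hsub).trans (Finset.card_union_le _ _)
  omega

theorem card_Q'_top {S m : ℕ} (hS : 1 ≤ S) (hm : m ≤ 2 * S + 1) :
    (Q' S m (S + 1)).card ≤ 2 * (S + 1) := by
  have h := good_cc S m hS
  -- four classes
  have hsub : Q' S m (S + 1) ⊆
      (((Q' S m (S + 1)).filter (fun q => q.1.2.2 = 0 ∧ q.2.2.2 = 1)) ∪
      ((Q' S m (S + 1)).filter (fun q => q.1.2.2 = 1 ∧ q.2.2.2 = 0))) ∪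
      ((Q' S m (S + 1)).filter (fun q => q.1.2.2 = 0 ∧ q.2.2.2 = 0)) ∪
      ((Q' S m (S + 1)).filter (fun q => q.1.2.2 = 1 ∧ q.2.2.2 = 1)) := by
    rintro ⟨⟨a, t, e⟩, ⟨a', t', e'⟩⟩ hq
    have hq' := hq
    rw [Q', Finset.mem_filter] at hq'
    have h1 := hq'.1
    rw [mem_Q] at h1
    simp only [Finset.mem_union, Finset.mem_filter]
    have h2 : e = 0 ∨ e = 1 := by omega
    have h3 : e' = 0 ∨ e' = 1 := by omega
    rcases h2 with rfl | rfl <;> rcases h3 with rfl | rfl
    · left; right; exact ⟨hq, rfl, rfl⟩
    · left; left; left; exact ⟨hq, rfl, rfl⟩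
    · left; left; right; exact ⟨hq, rfl, rfl⟩
    · right; exact ⟨hq, rfl, rfl⟩
  have hA : ((Q' S m (S + 1)).filter (fun q => q.1.2.2 = 0 ∧ q.2.2.2 = 1)).card ≤ (m + 1) / 2 := by
    have key : ∀ q ∈ (Q' S m (S + 1)).filter (fun q => q.1.2.2 = 0 ∧ q.2.2.2 = 1), ∃ t,
        q = ((S + 1, t, 0), (S + 1, t, 1)) ∧ 2 * t + 1 ≤ m := by
      rintro ⟨⟨a, t, e⟩, ⟨a', t', e'⟩⟩ hq
      rw [Finset.mem_filter, Q', Finset.mem_filter] at hq
      obtain ⟨⟨hq, h5, h6⟩, he, he'⟩ := hq
      simp only at he he' h5 h6
      subst he he'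
      rw [mem_Dom'] at h6 h5
      rcases classify h (by omega) (by omega) hq with h3 | h3 | h3
      · obtain ⟨rfl, rfl, -, -, rfl⟩ := h3
        exact ⟨t', rfl, by omega⟩
      · omega
      · omega
    calc _ ≤ (Finset.range ((m + 1) / 2)).card := by
          apply Finset.card_le_card_of_injOn (fun q => q.1.2.1)
          · intro q hq
            obtain ⟨t, rfl, h1⟩ := key q (Finset.mem_coe.mp hq)
            rw [Finset.mem_coe, Finset.mem_range]
            show t < _
            omega
          · intro q hq q' hq' heq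
            obtain ⟨t, rfl, h1⟩ := key q (Finset.mem_coe.mp hq)
            obtain ⟨t2, rfl, h2⟩ := key q' (Finset.mem_coe.mp hq')
            simp only at heq
            subst heq; rfl
      _ = _ := Finset.card_range _
  have hB : ((Q' S m (S + 1)).filter (fun q => q.1.2.2 = 1 ∧ q.2.2.2 = 0)).card ≤ m / 2 := by
    have key : ∀ q ∈ (Q' S m (S + 1)).filter (fun q => q.1.2.2 = 1 ∧ q.2.2.2 = 0), ∃ t,
        q = ((t + 1, t, 1), (t + 2, 0, 0)) ∧ t + 1 ≤ S ∧ S + 1 ≤ t + 1 + m / 2 := by
      rintro ⟨⟨a, t, e⟩, ⟨a', t', e'⟩⟩ hq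
      rw [Finset.mem_filter, Q', Finset.mem_filter] at hq
      obtain ⟨⟨hq, h5, h6⟩, he, he'⟩ := hq
      simp only at he he' h5 h6
      subst he he'
      rw [mem_Dom'] at h6 h5
      rcases classify h (by omega) (by omega) hq with h3 | h3 | h3
      · omega
      · obtain ⟨-, -, h4, h7⟩ := h3
        have hle := h.le a
        rcases h7 with ⟨rfl, rfl⟩ | ⟨rfl, rfl, h8⟩
        · exfalso; omega
        · subst h8
          refine ⟨t, rfl, by omega, ?_⟩
          unfold cc at h4
          by_contra hcon
          rw [if_pos (by omega)] at h4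
          omega
      · omega
    calc _ ≤ (Finset.Ico (S + 1 - m / 2) (S + 1)).card := by
          apply Finset.card_le_card_of_injOn (fun q => q.1.1)
          · intro q hq
            obtain ⟨t, rfl, h1, h2⟩ := key q (Finset.mem_coe.mp hq)
            rw [Finset.mem_coe, Finset.mem_Ico]
            simp only
            omega
          · intro q hq q' hq' heq
            obtain ⟨t, rfl, h1⟩ := key q (Finset.mem_coe.mp hq)
            obtain ⟨t2, rfl, h2⟩ := key q' (Finset.mem_coe.mp hq')
            simp only at heq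
            have : t = t2 := by omega
            subst this; rfl
      _ ≤ _ := by rw [Nat.card_Ico]; omega
  have hC : ((Q' S m (S + 1)).filter (fun q => q.1.2.2 = 0 ∧ q.2.2.2 = 0)).card ≤ S - m / 2 := by
    have key : ∀ q ∈ (Q' S m (S + 1)).filter (fun q => q.1.2.2 = 0 ∧ q.2.2.2 = 0), ∃ a a' t',
        q = ((a, 0, 0), (a', t', 0)) ∧ 1 ≤ a ∧ a + m / 2 < S + 1 ∧
        ((a' = a ∧ t' = 1 ∧ 2 ≤ a) ∨ (a = 1 ∧ a' = 2 ∧ t' = 0)) := by
      rintro ⟨⟨a, t, e⟩, ⟨a', t', e'⟩⟩ hq
      rw [Finset.mem_filter, Q', Finset.mem_filter] at hq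
      obtain ⟨⟨hq, h5, h6⟩, he, he'⟩ := hq
      simp only at he he' h5 h6
      subst he he'
      rw [mem_Dom'] at h6 h5
      rcases classify h (by omega) (by omega) hq with h3 | h3 | h3
      · omega
      · omega
      · obtain ⟨-, h4, rfl, -, h7⟩ := h3
        refine ⟨a, a', t', rfl, by omega, ?_, ?_⟩
        · unfold cc at h4
          by_contra hcon
          rw [if_neg (by omega)] at h4
          omega
        · omega
    calc _ ≤ (Finset.Ico 1 (S + 1 - m / 2)).card := by
          apply Finset.card_le_card_of_injOn (fun q => q.1.1)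
          · intro q hq
            obtain ⟨a, a', t', rfl, h1, h2, h3⟩ := key q (Finset.mem_coe.mp hq)
            rw [Finset.mem_coe, Finset.mem_Ico]
            simp only
            omega
          · intro q hq q' hq' heq
            obtain ⟨a, a', t', rfl, h1, h2, h3⟩ := key q (Finset.mem_coe.mp hq)
            obtain ⟨b, b', r', rfl, k1, k2, k3⟩ := key q' (Finset.mem_coe.mp hq')
            simp only at heq
            subst heq
            have : a' = b' ∧ t' = r' := by omega
            obtain ⟨rfl, rfl⟩ := this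
            rfl
      _ ≤ _ := by rw [Nat.card_Ico]; omega
  have hD : ((Q' S m (S + 1)).filter (fun q => q.1.2.2 = 1 ∧ q.2.2.2 = 1)).card ≤ S - m / 2 := by
    have key : ∀ q ∈ (Q' S m (S + 1)).filter (fun q => q.1.2.2 = 1 ∧ q.2.2.2 = 1), ∃ a,
        q = ((a, 0, 1), (a, 1, 1)) ∧ 1 ≤ a ∧ a + m / 2 < S + 1 := by
      rintro ⟨⟨a, t, e⟩, ⟨a', t', e'⟩⟩ hq
      rw [Finset.mem_filter, Q', Finset.mem_filter] at hq
      obtain ⟨⟨hq, h5, h6⟩, he, he'⟩ := hq
      simp only at he he' h5 h6
      subst he he'
      rw [mem_Dom'] at h6 h5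
      rcases classify h (by omega) (by omega) hq with h3 | h3 | h3
      · omega
      · omega
      · obtain ⟨-, h4, rfl, -, h7⟩ := h3
        have h8 : a' = a ∧ t' = 1 := by omega
        obtain ⟨rfl, rfl⟩ := h8
        refine ⟨a', rfl, by omega, ?_⟩
        unfold cc at h4
        by_contra hcon
        rw [if_neg (by omega)] at h4
        omega
    calc _ ≤ (Finset.Ico 1 (S + 1 - m / 2)).card := by
          apply Finset.card_le_card_of_injOn (fun q => q.1.1)
          · intro q hq
            obtain ⟨a, rfl, h1, h2⟩ := key q (Finset.mem_coe.mp hq)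
            rw [Finset.mem_coe, Finset.mem_Ico]
            simp only
            omega
          · intro q hq q' hq' heq
            obtain ⟨a, rfl, h1, h2⟩ := key q (Finset.mem_coe.mp hq)
            obtain ⟨b, rfl, k1, k2⟩ := key q' (Finset.mem_coe.mp hq')
            simp only at heq
            subst heq
            rfl
      _ ≤ _ := by rw [Nat.card_Ico]; omega
  have h1 := (Finset.card_le_card hsub).trans (Finset.card_union_le _ _)
  have h2 := Finset.card_union_le
      (((Q' S m (S + 1)).filter (fun q => q.1.2.2 = 0 ∧ q.2.2.2 = 1)) ∪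
      ((Q' S m (S + 1)).filter (fun q => q.1.2.2 = 1 ∧ q.2.2.2 = 0)))
      ((Q' S m (S + 1)).filter (fun q => q.1.2.2 = 0 ∧ q.2.2.2 = 0))
  have h3 := Finset.card_union_le
      ((Q' S m (S + 1)).filter (fun q => q.1.2.2 = 0 ∧ q.2.2.2 = 1))
      ((Q' S m (S + 1)).filter (fun q => q.1.2.2 = 1 ∧ q.2.2.2 = 0))
  omega

theorem card_Q'_le {S m z : ℕ} (hS : 1 ≤ S) (hm : m ≤ 2 * S + 1) (hz1 : 1 ≤ z) :
    (Q' S m z).card ≤ 2 * z := by
  rcases Nat.lt_or_ge z (S + 1) with hz | hz
  · exact card_Q'_small hS hm hz1 (by omega)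
  · rcases Nat.lt_or_ge (S + 1) z with hz2 | hz2
    · exact (Finset.card_le_card (Finset.filter_subset _ _)).trans (card_Q_le (good_cc S m hS) hz2)
    · have : z = S + 1 := by omega
      subst this
      exact card_Q'_top hS hm

end Pool.Agent.Helper73.Hick
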