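import Pool.Agent.Helper73.Hick.Large

/-!
The range `S + 1 < z < 4 S`, `S ≥ 35`.
-/

namespace Pool.Agent.Helper73.Hick

theorem T1 : T 1 = 1 := rfl
theorem T2 : T 2 = 3 := rfl
theorem T3 : T 3 = 6 := rfl
theorem T4 : T 4 = 10 := rfl

theorem F6_eq_three {S z : ℕ} (hS : 3 ≤ S) (hz : z < 4 * S) :
    F6 S z = (if 2 * S + 3 < z then 2 else 0) + (if 3 * S + 6 < z then 4 else 0) := by
  unfold F6
  have h1 : ∑ a ∈ Finset.range S, (if (a + 1) * S + T (a + 1) < z then 2 * a else 0) =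
      ∑ a ∈ Finset.range 3, (if (a + 1) * S + T (a + 1) < z then 2 * a else 0) := by
    symm
    apply Finset.sum_subset
    · apply Finset.range_subset_range.mpr hS
    · intro a ha ha'
      rw [Finset.mem_range] at ha ha'
      rw [if_neg]
      have : 4 * S ≤ (a + 1) * S := Nat.mul_le_mul_right _ (by omega)
      omega
  rw [h1, Finset.sum_range_succ, Finset.sum_range_succ, Finset.sum_range_one]
  simp only [T1, T2, T3, Nat.zero_add, Nat.reduceAdd, mul_zero, ite_self, Nat.reduceMul]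
  all_goals rfl

theorem F6_a {S z : ℕ} (hS : 3 ≤ S) (hz : z ≤ 2 * S + 3) : F6 S z = 0 := by
  rcases Nat.lt_or_ge z (4 * S) with h | h
  · rw [F6_eq_three hS h, if_neg (by omega), if_neg (by omega)]
  · omega

theorem F6_b {S z : ℕ} (hS : 7 ≤ S) (hz : z ≤ 3 * S + 6) : F6 S z ≤ 2 := by
  rw [F6_eq_three (by omega) (by omega), if_neg (by omega : ¬ 3 * S + 6 < z)]
  split_ifs <;> omega

theorem F6_c {S z : ℕ} (hS : 3 ≤ S) (hz : z < 4 * S) : F6 S z ≤ 6 := by
  rw [F6_eq_three hS hz]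
  split_ifs <;> omega

theorem C4_first {S : ℕ} (hS : 3 ≤ S) : (C4set S (S + 2)).card ≤ 2 := by
  have hD : (S + 2) / S = 1 := by
    rw [Nat.div_eq_iff (by omega)]; omega
  have : C4set S (S + 2) ⊆ {(1, 0, 0, 0), (1, 0, 1, 1)} := by
    rintro ⟨s, u, e, e'⟩ hp
    rw [C4set, Finset.mem_filter] at hp
    simp only [Finset.mem_product, Finset.mem_Icc, Finset.mem_range, hD] at hp
    obtain ⟨⟨⟨h1, h2⟩, h3, h4, h5⟩, h6, h7, h8, h9, h10⟩ := hp
    have hs : s = 1 := by omega
    have hu : u = 0 := by omega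
    subst hs hu
    have h0 : T 0 = 0 := rfl
    simp only [Nat.sub_self, h0] at h9 h10
    interval_cases e <;> interval_cases e' <;> simp at h6 h9 h10 ⊢
  exact (Finset.card_le_card this).trans Finset.card_le_two

theorem C4_second {S : ℕ} (hS : 4 ≤ S) : (C4set S (2 * S + 3)).card ≤ 5 := by
  have hD : (2 * S + 3) / S = 2 := by
    rw [Nat.div_eq_iff (by omega)]; omega
  have : C4set S (2 * S + 3) ⊆
      {(1, 0, 0, 1), (1, 1, 0, 0), (1, 1, 1, 1), (2, 0, 0, 0), (2, 0, 1, 0)} := by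
    rintro ⟨s, u, e, e'⟩ hp
    rw [C4set, Finset.mem_filter] at hp
    simp only [Finset.mem_product, Finset.mem_Icc, Finset.mem_range, hD] at hp
    obtain ⟨⟨⟨h1, h2⟩, h3, h4, h5⟩, h6, h7, h8, h9, h10⟩ := hp
    have h0 : T 0 = 0 := rfl
    have hsu : (s = 1 ∧ u = 0) ∨ (s = 1 ∧ u = 1) ∨ (s = 2 ∧ u = 0) := by omega
    rcases hsu with ⟨rfl, rfl⟩ | ⟨rfl, rfl⟩ | ⟨rfl, rfl⟩
    · simp only [Nat.sub_self, h0] at h9 h10
      interval_cases e <;> interval_cases e' <;> simp at h6 h9 h10 ⊢ <;> omega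
    · simp only [Nat.sub_self, h0, T1] at h9 h10
      interval_cases e <;> interval_cases e' <;> simp at h6 h9 h10 ⊢ <;> omega
    · simp only [Nat.reduceSub, h0, T1] at h9 h10
      interval_cases e <;> interval_cases e' <;> simp at h6 h9 h10 ⊢
  refine (Finset.card_le_card this).trans ?_
  exact Finset.card_le_five

theorem F1_le (S z d : ℕ) : F1 S z d ≤ 2 * (S + 1) - ((z - T d) / d + d) := by
  unfold F1; split_ifs <;> omega

theorem F1_zero (S z d : ℕ) (h : z < d * S + T d) : F1 S z d = 0 := by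
  unfold F1; rw [if_neg (by omega)]

theorem F2_le1 (S z d : ℕ) : F2 S z d ≤ (z + (S + 1) - (T d + d + 1)) / (d + 1) + 1 - S := by
  unfold F2; omega

theorem F2_le2 (S z d : ℕ) : F2 S z d ≤ (z + (S + 1) - (T d + d + 1)) / (d + 1) + 1 -
    ((z - (S + 1 + T d) + (d - 1)) / d) := by
  unfold F2; omega

theorem F3_le1 (S z e : ℕ) : F3 S z e ≤ (z + (S + 1) - T e) / e + 1 - S := by
  unfold F3; omega

theorem F3_le2 (S z e : ℕ) : F3 S z e ≤ (z + (S + 1) - T e) / e + 1 -
    ((z + e + 1 - (T e + (S + 1)) + (e - 2)) / (e - 1)) := by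
  unfold F3; omega

theorem c11 {S z : ℕ} (hz : S + 1 < z) (hz4 : z < 4 * S) : F1 S z 1 ≤ 2 * S + 2 - z := by
  have g := F1_le S z 1
  simp only [T1, Nat.div_one] at g
  omega

theorem c12 {S z : ℕ} (hz : S + 1 < z) (hz4 : z < 4 * S) : 2 * F1 S z 2 + z ≤ 4 * S + 4 := by
  have g := F1_le S z 2
  simp only [T2] at g
  omega

theorem c13 {S z : ℕ} (hz : S + 1 < z) (hz4 : z < 4 * S) : 3 * F1 S z 3 + z ≤ 6 * S + 5 := by
  have g := F1_le S z 3
  simp only [T3] at g
  omega

theorem c21 {S z : ℕ} (hz : S + 1 < z) : 2 * F2 S z 1 ≤ z - S := by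
  have g := F2_le1 S z 1
  simp only [T1, Nat.reduceAdd] at g
  omega

theorem c21' {S z : ℕ} (hz : S + 1 < z) (hz4 : z < 3 * S) : 2 * F2 S z 1 + z ≤ 3 * S + 4 := by
  have g := F2_le2 S z 1
  simp only [T1, Nat.reduceAdd, Nat.reduceSub, Nat.div_one] at g
  omega

theorem c21'' {S z : ℕ} (hz : 3 * S ≤ z) : F2 S z 1 ≤ 2 := by
  have g := F2_le2 S z 1
  simp only [T1, Nat.reduceAdd, Nat.reduceSub, Nat.div_one] at g
  omega

theorem c22 {S z : ℕ} (hS : 10 ≤ S) (hz : S + 1 < z) : 3 * F2 S z 2 ≤ z - 2 - 2 * S := by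
  have g := F2_le1 S z 2
  simp only [T2, Nat.reduceAdd] at g
  omega

theorem c22' {S z : ℕ} (hz : 3 * S ≤ z) (hz4 : z < 4 * S) (hS : 8 ≤ S) :
    6 * F2 S z 2 + z ≤ 5 * S + 8 := by
  have g := F2_le2 S z 2
  simp only [T2, Nat.reduceAdd, Nat.reduceSub] at g
  omega

theorem c23 {S z : ℕ} (hS : 10 ≤ S) (hz : S + 1 < z) : 4 * F2 S z 3 ≤ z - 3 * S - 4 := by
  have g := F2_le1 S z 3
  simp only [T3, Nat.reduceAdd] at g
  omega

theorem c32 {S z : ℕ} (hz : S + 1 < z) : 2 * F3 S z 2 ≤ z - S := by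
  have g := F3_le1 S z 2
  simp only [T2, Nat.reduceAdd] at g
  omega

theorem c32' {S z : ℕ} (hz : S + 1 < z) (hz4 : z < 3 * S) : 2 * F3 S z 2 + z ≤ 3 * S + 2 := by
  have g := F3_le2 S z 2
  simp only [T2, Nat.reduceSub, Nat.div_one] at g
  omega

theorem c32'' {S z : ℕ} (hz : 3 * S ≤ z) : F3 S z 2 ≤ 2 := by
  have g := F3_le2 S z 2
  simp only [T2, Nat.reduceSub, Nat.div_one] at g
  omega

theorem c33 {S z : ℕ} (hS : 10 ≤ S) (hz : S + 1 < z) : 3 * F3 S z 3 ≤ z - 2 - 2 * S := by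
  have g := F3_le1 S z 3
  simp only [T3, Nat.reduceAdd] at g
  omega

theorem c33' {S z : ℕ} (hz : 3 * S ≤ z) (hz4 : z < 4 * S) (hS : 8 ≤ S) :
    6 * F3 S z 3 + z ≤ 5 * S + 8 := by
  have g := F3_le2 S z 3
  simp only [T3, Nat.reduceSub] at g
  omega

theorem c34 {S z : ℕ} (hS : 10 ≤ S) (hz : S + 1 < z) : 4 * F3 S z 4 ≤ z - 3 * S - 4 := by
  have g := F3_le1 S z 4
  simp only [T4, Nat.reduceAdd] at g
  omega

theorem card_Q_D1 {S : ℕ} {c : ℕ → ℕ} (h : Good S c) {z : ℕ} (hS : 10 ≤ S)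
    (hz : S + 1 < z) (hz2 : z < 2 * S) : (Q c (S + 1) z).card ≤ 2 * z := by
  have h0 := card_Q_sharp h hz
  have hD : z / S = 1 := by rw [Nat.div_eq_iff (by omega)]; omega
  have h6 := F6_a (S := S) (z := z) (by omega) (by omega)
  have h4 : z = S + 2 → (C4set S z).card ≤ 2 := by
    intro hc
    rw [hc]; exact C4_first (by omega)
  have h4' : (C4set S z).card ≤ 4 := by
    have := card_C4set_le' (S := S) (z := z) (by omega)
    rw [hD, T1] at this
    omega
  have h5 : F5 S z = 0 := by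
    unfold F5
    rw [hD, Finset.sum_range_succ, Finset.sum_range_one]
    have e0 : T 0 = 0 := rfl
    rw [e0, T1, if_neg (by omega), if_neg (by omega)]
  rw [hD, sum_Icc_one, sum_Icc_one, sum_Icc_two] at h0
  simp only [sm_zero, sm_succ, Nat.zero_add] at h0
  have g1 := c11 (S := S) hz (by omega)
  have g2 := c21 (S := S) hz
  have g3 := c32 (S := S) hz
  rw [h5, h6] at h0
  generalize (Q c (S + 1) z).card = N at h0
  generalize (C4set S z).card = C at *
  generalize F1 S z 1 = A1 at *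
  generalize F2 S z 1 = A2 at *
  generalize F3 S z 2 = A3 at *
  omega

theorem card_Q_D2 {S : ℕ} {c : ℕ → ℕ} (h : Good S c) {z : ℕ} (hS : 10 ≤ S)
    (hz : 2 * S ≤ z) (hz2 : z < 3 * S) : (Q c (S + 1) z).card ≤ 2 * z := by
  have h0 := card_Q_sharp h (z := z) (by omega)
  have hD : z / S = 2 := by rw [Nat.div_eq_iff (by omega)]; omega
  have h6 : z ≤ 2 * S + 3 → F6 S z = 0 := F6_a (S := S) (z := z) (by omega)
  have h6' := F6_b (S := S) (z := z) (by omega) (by omega)
  have h4 : z = 2 * S + 3 → (C4set S z).card ≤ 5 := by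
    intro hc
    rw [hc]; exact C4_second (by omega)
  have h4' : (C4set S z).card ≤ 12 := by
    have := card_C4set_le' (S := S) (z := z) (by omega)
    rw [hD, T2] at this
    omega
  have h5 : F5 S z ≤ S ∧ (2 * S + 3 < z → F5 S z = 0) := by
    unfold F5
    rw [hD, Finset.sum_range_succ, Finset.sum_range_succ, Finset.sum_range_one]
    have e0 : T 0 = 0 := rfl
    rw [e0, T1, T2, if_neg (by omega : ¬ ((0 + 1) * S + 0 ≤ z ∧ z ≤ (0 + 1) * (S + 1) + 0)),
      if_neg (by omega : ¬ ((2 + 1) * S + 3 ≤ z ∧ z ≤ (2 + 1) * (S + 1) + 3))]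
    constructor
    · split_ifs <;> simp
    · intro hh
      rw [if_neg (by omega)]
  rw [hD, sum_Icc_one, sum_Icc_one, sum_Icc_two] at h0
  simp only [sm_zero, sm_succ, Nat.zero_add] at h0
  have b1 := c11 (S := S) (z := z) (by omega) (by omega)
  have b12 := c12 (S := S) (z := z) (by omega) (by omega)
  have g1'' := F1_zero S z 2
  rw [T2] at g1''
  have b2 := c21 (S := S) (z := z) (by omega)
  have b2' := c21' (S := S) (z := z) (by omega) (by omega)
  have b22 := c22 (S := S) (z := z) (by omega) (by omega)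
  have b3 := c32 (S := S) (z := z) (by omega)
  have b3' := c32' (S := S) (z := z) (by omega) (by omega)
  have b33 := c33 (S := S) (z := z) (by omega) (by omega)
  simp only [Nat.reduceAdd] at h0
  obtain ⟨h5, h5'⟩ := h5
  generalize (Q c (S + 1) z).card = N at h0
  generalize (C4set S z).card = C at *
  generalize F1 S z 1 = A1 at *
  generalize F1 S z 2 = A12 at *
  generalize F2 S z 1 = A2 at *
  generalize F2 S z 2 = A22 at *
  generalize F3 S z 2 = A3 at *
  generalize F3 S z 3 = A33 at *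
  generalize F5 S z = A5 at *
  generalize F6 S z = A6 at *
  clear hD h
  rcases Nat.lt_or_ge (2 * S + 3) z with hh | hh
  · have := h5' hh
    omega
  · have := h6 hh
    rcases Nat.lt_or_ge z (2 * S + 3) with hh2 | hh2
    · have := g1'' (by omega)
      omega
    · have := h4 (by omega)
      omega

theorem card_Q_D3 {S : ℕ} {c : ℕ → ℕ} (h : Good S c) {z : ℕ} (hS : 30 ≤ S)
    (hz : 3 * S ≤ z) (hz2 : z < 4 * S) : (Q c (S + 1) z).card ≤ 2 * z := by
  have h0 := card_Q_sharp h (z := z) (by omega)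
  have hD : z / S = 3 := by rw [Nat.div_eq_iff (by omega)]; omega
  have h6 : z ≤ 3 * S + 6 → F6 S z ≤ 2 := F6_b (S := S) (z := z) (by omega)
  have h6' := F6_c (S := S) (z := z) (by omega) (by omega)
  have h4' : (C4set S z).card ≤ 24 := by
    have := card_C4set_le' (S := S) (z := z) (by omega)
    rw [hD, T3] at this
    omega
  have h5 : F5 S z ≤ S ∧ (3 * S + 6 < z → F5 S z = 0) := by
    unfold F5
    rw [hD, Finset.sum_range_succ, Finset.sum_range_succ, Finset.sum_range_succ,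
      Finset.sum_range_one]
    have e0 : T 0 = 0 := rfl
    rw [e0, T1, T2, T3, if_neg (by omega : ¬ ((0 + 1) * S + 0 ≤ z ∧ z ≤ (0 + 1) * (S + 1) + 0)),
      if_neg (by omega : ¬ ((1 + 1) * S + 1 ≤ z ∧ z ≤ (1 + 1) * (S + 1) + 1)),
      if_neg (by omega : ¬ ((3 + 1) * S + 6 ≤ z ∧ z ≤ (3 + 1) * (S + 1) + 6))]
    constructor
    · split_ifs <;> simp
    · intro hh
      rw [if_neg (by omega)]
  rw [hD, sum_Icc_one, sum_Icc_one, sum_Icc_two] at h0
  simp only [sm_zero, sm_succ, Nat.zero_add] at h0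
  have b1 := c11 (S := S) (z := z) (by omega) (by omega)
  have b12 := c12 (S := S) (z := z) (by omega) (by omega)
  have b13 := c13 (S := S) (z := z) (by omega) (by omega)
  have b2 := c21'' (S := S) (z := z) hz
  have b22 := c22' (S := S) (z := z) hz hz2 (by omega)
  have b23 := c23 (S := S) (z := z) (by omega) (by omega)
  have b3 := c32'' (S := S) (z := z) hz
  have b32 := c33' (S := S) (z := z) hz hz2 (by omega)
  have b33 := c34 (S := S) (z := z) (by omega) (by omega)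
  have g1'' := F1_zero S z 3
  rw [T3] at g1''
  simp only [Nat.reduceAdd] at h0
  obtain ⟨h5, h5'⟩ := h5
  generalize (Q c (S + 1) z).card = N at h0
  generalize (C4set S z).card = C at *
  generalize F1 S z 1 = A1 at *
  generalize F1 S z 2 = A12 at *
  generalize F1 S z 3 = A13 at *
  generalize F2 S z 1 = A2 at *
  generalize F2 S z 2 = A22 at *
  generalize F2 S z 3 = A23 at *
  generalize F3 S z 2 = A3 at *
  generalize F3 S z 3 = A33 at *
  generalize F3 S z 4 = A34 at *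
  generalize F5 S z = A5 at *
  generalize F6 S z = A6 at *
  clear hD h
  have a1 : A1 = 0 := by clear h0; omega
  have a23 : 4 * A23 ≤ S := by clear h0; omega
  have a34 : 4 * A34 ≤ S := by clear h0; omega
  rcases Nat.lt_or_ge z (3 * S + 6) with hh | hh
  · have := g1'' (by omega)
    linarith
  · have e23 : 4 * A23 + 3 * S + 4 ≤ z := by clear h0; omega
    have e34 : 4 * A34 + 3 * S + 4 ≤ z := by clear h0; omega
    linarith

end Pool.Agent.Helper73.Hick
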