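import Pool.Agent.Helper73.Hick.ClassC

/-!
Assembling the count of pairs at distance `z`.
-/

namespace Pool.Agent.Helper73.Hick

variable {S : ℕ} {c : ℕ → ℕ}

theorem card_split (h : Good S c) {z : ℕ} (hz : 0 < z) :
    (Q c (S + 1) z).card ≤
      ((Q c (S + 1) z).filter (fun q => q.1.1 = q.2.1 ∧ q.1.2.2 = q.2.2.2)).card +
      ((Q c (S + 1) z).filter (fun q => q.1.1 = q.2.1 ∧ q.1.2.2 = 0 ∧ q.2.2.2 = 1)).card +
      ((Q c (S + 1) z).filter (fun q => q.1.1 = q.2.1 ∧ q.1.2.2 = 1 ∧ q.2.2.2 = 0)).card +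
      ((Q c (S + 1) z).filter (fun q => q.2.1 = q.1.1 + 1 ∧
        ¬ (q.1.2.1 + 1 = q.1.1 ∧ q.1.2.2 = 1 ∧ q.2.2.2 = 0))).card +
      ((Q c (S + 1) z).filter (fun q => q.2.1 = q.1.1 + 1 ∧
        (q.1.2.1 + 1 = q.1.1 ∧ q.1.2.2 = 1 ∧ q.2.2.2 = 0))).card +
      ((Q c (S + 1) z).filter (fun q => q.1.1 + 2 ≤ q.2.1)).card := by
  have hsub : Q c (S + 1) z ⊆
      (((((Q c (S + 1) z).filter (fun q => q.1.1 = q.2.1 ∧ q.1.2.2 = q.2.2.2)) ∪
      ((Q c (S + 1) z).filter (fun q => q.1.1 = q.2.1 ∧ q.1.2.2 = 0 ∧ q.2.2.2 = 1))) ∪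
      ((Q c (S + 1) z).filter (fun q => q.1.1 = q.2.1 ∧ q.1.2.2 = 1 ∧ q.2.2.2 = 0))) ∪
      ((Q c (S + 1) z).filter (fun q => q.2.1 = q.1.1 + 1 ∧
        ¬ (q.1.2.1 + 1 = q.1.1 ∧ q.1.2.2 = 1 ∧ q.2.2.2 = 0)))) ∪
      ((Q c (S + 1) z).filter (fun q => q.2.1 = q.1.1 + 1 ∧
        (q.1.2.1 + 1 = q.1.1 ∧ q.1.2.2 = 1 ∧ q.2.2.2 = 0))) ∪
      ((Q c (S + 1) z).filter (fun q => q.1.1 + 2 ≤ q.2.1)) := by
    rintro ⟨⟨a, t, e⟩, ⟨a', t', e'⟩⟩ hq
    have hq' := hq
    rw [mem_Q] at hq'
    obtain ⟨⟨h1, h2, h3⟩, ⟨h4, h5, h6⟩, h7⟩ := hq'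
    have hle : a ≤ a' := run_le h (t := t) (e := e) h5 h6 (by rw [pos_def, pos_def]; omega)
    simp only [Finset.mem_union, Finset.mem_filter]
    rcases Nat.lt_or_ge a a' with hlt | hge
    · rcases Nat.lt_or_ge (a + 1) a' with hlt2 | hge2
      · right; exact ⟨hq, hlt2⟩
      · have : a' = a + 1 := by omega
        by_cases hs : (t + 1 = a ∧ e = 1 ∧ e' = 0)
        · left; right; exact ⟨hq, this, hs⟩
        · left; left; right; exact ⟨hq, this, hs⟩
    · have : a = a' := by omega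
      left; left; left
      by_cases he : e = e'
      · left; left; exact ⟨hq, this, he⟩
      · have : e = 0 ∧ e' = 1 ∨ e = 1 ∧ e' = 0 := by omega
        rcases this with ⟨h8, h9⟩ | ⟨h8, h9⟩
        · left; right; exact ⟨hq, by assumption, h8, h9⟩
        · right; exact ⟨hq, by assumption, h8, h9⟩
  refine (Finset.card_le_card hsub).trans ?_
  refine (Finset.card_union_le _ _).trans (Nat.add_le_add_right ?_ _)
  refine (Finset.card_union_le _ _).trans (Nat.add_le_add_right ?_ _)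
  refine (Finset.card_union_le _ _).trans (Nat.add_le_add_right ?_ _)
  refine (Finset.card_union_le _ _).trans (Nat.add_le_add_right ?_ _)
  exact Finset.card_union_le _ _

/-- sharp bound -/
theorem card_Q_sharp (h : Good S c) {z : ℕ} (hz : S + 1 < z) :
    (Q c (S + 1) z).card ≤
      ∑ d ∈ Finset.Icc 1 (z / S), 2 * F1 S z d + ∑ d ∈ Finset.Icc 1 (z / S), F2 S z d +
      ∑ d ∈ Finset.Icc 2 (z / S + 1), F3 S z d + (C4set S z).card + F5 S z + F6 S z := by
  have h0 := card_split h (z := z) (by omega)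
  have h1 := card_Q1 h (z := z) (by omega)
  have h2 := card_Q2 h hz
  have h3 := card_Q3 h hz
  have h4 := card_Q4 h (z := z)
  have h5 := card_Q5 h (z := z)
  have h6 := card_Q6 h (z := z)
  omega

theorem F6_le (z : ℕ) (hS : 1 ≤ S) : F6 S z ≤ (z / S) * (z / S - 1) := by
  unfold F6
  have h1 : ∑ a ∈ Finset.range S, (if (a + 1) * S + T (a + 1) < z then 2 * a else 0) ≤
      ∑ a ∈ Finset.range (z / S), 2 * a := by
    rw [← Finset.sum_filter]
    apply Finset.sum_le_sum_of_subset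
    intro a ha
    rw [Finset.mem_filter] at ha
    rw [Finset.mem_range]
    have : a + 1 ≤ z / S := by
      rw [Nat.le_div_iff_mul_le (by omega)]
      omega
    omega
  refine h1.trans ?_
  rw [← Finset.mul_sum, mul_comm 2, Finset.sum_range_id_mul_two]

/-- crude bound -/
theorem card_Q_crude (h : Good S c) {z : ℕ} (hz : S + 1 < z) :
    (Q c (S + 1) z).card ≤
      ∑ d ∈ Finset.Icc 1 (z / S), 2 * F1 S z d + (2 * S + 1) + (C4set S z).card + S +
        (z / S) * (z / S - 1) := by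
  have hS := h.posS
  have h0 := card_split h (z := z) (by omega)
  have h1 := card_Q1 h (z := z) (by omega)
  have h2 := card_Q2_crude h hz
  have h3 := card_Q3_crude h hz
  have h4 := card_Q4 h (z := z)
  have h5 := card_Q5_crude h (z := z)
  have h6 := card_Q6 h (z := z)
  have h7 := F6_le z hS
  omega

theorem sum_Icc_T (m D : ℕ) (hm : m ≤ D + 1) :
    ∑ k ∈ Finset.Icc m D, k + T (m - 1) = T D := by
  induction D with
  | zero =>
    have : m = 0 ∨ m = 1 := by omega
    rcases this with rfl | rfl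
    · rfl
    · rfl
  | succ n ih =>
    rcases Nat.lt_or_ge (n + 1) m with hlt | hge
    · have : m = n + 2 := by omega
      subst this
      rw [Finset.Icc_eq_empty (by omega), Finset.sum_empty]
      simp
    · rw [Finset.sum_Icc_succ_top hge]
      have := ih (by omega)
      rw [T_succ]; omega

theorem card_C4set_le (hS : 1 ≤ S) {z : ℕ} :
    (C4set S z).card ≤ 4 * ∑ k ∈ Finset.Icc ((z + S) / (2 * (S + 1))) (z / S), k := by
  have hmem : ∀ p ∈ C4set S z, 1 ≤ p.1 ∧ p.1 + p.2.1 ≤ z / S ∧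
      (z + S) / (2 * (S + 1)) ≤ p.1 + p.2.1 ∧ p.2.2.1 < 2 ∧ p.2.2.2 < 2 := by
    rintro ⟨s, u, e, e'⟩ hp
    rw [C4set, Finset.mem_filter] at hp
    simp only [Finset.mem_product, Finset.mem_Icc, Finset.mem_range] at hp
    obtain ⟨⟨⟨h1, h2⟩, h3, h4, h5⟩, h6, h7, h8, h9, h10⟩ := hp
    refine ⟨h1, h7, ?_, h4, h5⟩
    simp only
    rw [Nat.div_le_iff_le_mul_add_pred (by omega)]
    have hT : 2 * T u ≤ u * (S + 1) := by
      rw [two_T]; exact Nat.mul_le_mul_left _ (by omega)
    have he' : e' * (S + 1) ≤ S + 1 := by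
      have : e' = 0 ∨ e' = 1 := by omega
      rcases this with rfl | rfl <;> omega
    have e1 : 2 * (S + 1) * (s + u) = 2 * (s * (S + 1)) + 2 * (u * (S + 1)) := by ring
    have e2 : s * (S + 1) = s * S + s := by ring
    rw [e1]
    have e3 : 0 ≤ e * S := Nat.zero_le _
    omega
  rw [Finset.card_eq_sum_card_fiberwise (f := fun p => p.1 + p.2.1)
    (t := Finset.Icc ((z + S) / (2 * (S + 1))) (z / S)), Finset.mul_sum]
  · apply Finset.sum_le_sum
    intro k hk
    calc _ ≤ (Finset.Icc 1 k ×ˢ (Finset.range 2 ×ˢ Finset.range 2)).card := by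
          apply Finset.card_le_card_of_injOn (fun p => (p.1, p.2.2.1, p.2.2.2))
          · intro p hp
            have hp := Finset.mem_coe.mp hp
            rw [Finset.mem_filter] at hp
            obtain ⟨g1, g2, g3, g4, g5⟩ := hmem p hp.1
            have := hp.2
            rw [Finset.mem_coe, Finset.mem_product, Finset.mem_product, Finset.mem_Icc,
              Finset.mem_range, Finset.mem_range]
            refine ⟨⟨g1, (by show p.1 ≤ k; omega)⟩, g4, g5⟩
          · rintro ⟨s, u, e, e'⟩ hp ⟨s2, u2, e2, e2'⟩ hp2 heq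
            have hp := Finset.mem_coe.mp hp
            have hp2 := Finset.mem_coe.mp hp2
            rw [Finset.mem_filter] at hp hp2
            simp only [Prod.mk.injEq] at heq
            obtain ⟨rfl, rfl, rfl⟩ := heq
            have k1 := hp.2
            have k2 := hp2.2
            simp only at k1 k2
            have : u = u2 := by omega
            subst this; rfl
      _ = 4 * k := by
          rw [Finset.card_product, Finset.card_product, Nat.card_Icc, Finset.card_range]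
          omega
  · intro p hp
    obtain ⟨g1, g2, g3, g4, g5⟩ := hmem p (Finset.mem_coe.mp hp)
    rw [Finset.mem_coe, Finset.mem_Icc]
    exact ⟨g3, g2⟩

theorem card_C4set_le' (hS : 1 ≤ S) {z : ℕ} :
    (C4set S z).card ≤ 4 * (T (z / S) - T ((z + S) / (2 * (S + 1)) - 1)) := by
  refine (card_C4set_le hS).trans ?_
  apply Nat.mul_le_mul_left
  rcases Nat.lt_or_ge (z / S + 1) ((z + S) / (2 * (S + 1))) with hlt | hge
  · rw [Finset.Icc_eq_empty (by omega), Finset.sum_empty]; omega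
  · have := sum_Icc_T _ _ hge
    omega

end Pool.Agent.Helper73.Hick
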