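import Pool.Agent.Helper73.Hick.SmallZ

/-!
All distances `z > S + 1`.
-/

namespace Pool.Agent.Helper73.Hick

variable {S : ℕ} {c : ℕ → ℕ}

theorem card_fiber_le (A : Finset (ℕ × ℕ × ℕ)) (a : ℕ)
    (hA : ∀ p ∈ A, p.2.1 < p.1 ∧ p.2.2 < 2) :
    (A.filter (fun p => p.1 = a)).card ≤ 2 * a := by
  calc _ ≤ (Finset.range a ×ˢ Finset.range 2).card := by
        apply Finset.card_le_card_of_injOn (fun q => q.2)
        · intro q hq
          have hq1 := Finset.mem_coe.mp hq
          rw [Finset.mem_filter] at hq1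
          obtain ⟨g1, g2⟩ := hA q hq1.1
          rw [hq1.2] at g1
          rw [Finset.mem_coe, Finset.mem_product, Finset.mem_range, Finset.mem_range]
          exact ⟨g1, g2⟩
        · intro q hq q' hq' heq
          have hq1 := Finset.mem_coe.mp hq
          have hq2 := Finset.mem_coe.mp hq'
          rw [Finset.mem_filter] at hq1 hq2
          exact Prod.ext (hq1.2.trans hq2.2.symm) heq
    _ ≤ _ := by
        rw [Finset.card_product, Finset.card_range, Finset.card_range]; omega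

theorem card_Dom_le (L : ℕ) : (Dom L).card ≤ L * (L + 1) := by
  have h1 : (Dom L).card = ∑ a ∈ Finset.range (L + 1), ((Dom L).filter (fun p => p.1 = a)).card := by
    apply Finset.card_eq_sum_card_fiberwise
    rintro ⟨a, t, e⟩ hp
    have hp := Finset.mem_coe.mp hp
    rw [mem_Dom] at hp
    rw [Finset.mem_coe, Finset.mem_range]
    show a < L + 1
    omega
  rw [h1]
  have h2 : ∑ a ∈ Finset.range (L + 1), ((Dom L).filter (fun p => p.1 = a)).card ≤
      ∑ a ∈ Finset.range (L + 1), 2 * a := by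
    apply Finset.sum_le_sum
    intro a _
    apply card_fiber_le
    rintro ⟨a, t, e⟩ hp
    rw [mem_Dom] at hp
    exact ⟨hp.2.1, hp.2.2⟩
  refine h2.trans ?_
  rw [← Finset.mul_sum, mul_comm 2, Finset.sum_range_id_mul_two]
  have : L + 1 - 1 = L := by omega
  rw [this, mul_comm]

theorem card_Q_trivial (h : Good S c) (z : ℕ) : (Q c (S + 1) z).card ≤ (S + 1) * (S + 2) := by
  refine le_trans ?_ (card_Dom_le (S + 1))
  apply Finset.card_le_card_of_injOn (fun q => q.1)
  · rintro ⟨⟨a, t, e⟩, ⟨a', t', e'⟩⟩ hq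
    have hq := Finset.mem_coe.mp hq
    rw [mem_Q] at hq
    rw [Finset.mem_coe, mem_Dom]
    exact hq.1
  · rintro ⟨⟨a, t, e⟩, ⟨a', t', e'⟩⟩ hq ⟨⟨a2, t2, e2⟩, ⟨a2', t2', e2'⟩⟩ hq2 heq
    have hq := Finset.mem_coe.mp hq
    have hq2 := Finset.mem_coe.mp hq2
    rw [mem_Q] at hq hq2
    simp only [Prod.mk.injEq] at heq
    obtain ⟨rfl, rfl, rfl⟩ := heq
    obtain ⟨-, ⟨k1, k2, k3⟩, k4⟩ := hq
    obtain ⟨-, ⟨l1, l2, l3⟩, l4⟩ := hq2
    obtain ⟨rfl, rfl, rfl⟩ := pos_inj h k1 k2 k3 l2 l3 l1 (by rw [pos_def, pos_def]; omega)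
    rfl

/-- main estimate: at most `2 z` pairs at distance `z > S + 1` -/
theorem card_Q_le (h : Good S c) {z : ℕ} (hz : S + 1 < z) : (Q c (S + 1) z).card ≤ 2 * z := by
  have hS := h.posS
  rcases Nat.lt_or_ge (2 * z) ((S + 1) * (S + 2)) with hlt | hge
  swap
  · exact (card_Q_trivial h z).trans hge
  have hzlt : z < (S + 1) * (S + 2) / 2 := by
    have h2 : 2 ∣ (S + 1) * (S + 2) := (Nat.even_mul_succ_self (S + 1)).two_dvd
    obtain ⟨k, hk⟩ := h2
    rw [hk] at hlt ⊢
    omega
  rcases Nat.lt_or_ge S 35 with hs | hs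
  · have h1 := allB_spec _ _ chk_all (S - 1) (by omega)
    have h2 : S - 1 + 1 = S := by omega
    rw [h2] at h1
    have h3 := allB_spec _ _ h1 z hzlt
    rw [Bool.or_eq_true, Nat.ble_eq, Nat.ble_eq] at h3
    have h4 := card_Q_kB h hz
    omega
  · rcases Nat.lt_or_ge z (4 * S) with hz4 | hz4
    · rcases Nat.lt_or_ge z (2 * S) with hz2 | hz2
      · exact card_Q_D1 h (by omega) hz hz2
      · rcases Nat.lt_or_ge z (3 * S) with hz3 | hz3
        · exact card_Q_D2 h (by omega) hz2 hz3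
        · exact card_Q_D3 h (by omega) hz3 hz4
    · rcases Nat.lt_or_ge S 133 with hs2 | hs2
      · have h1 := allB_spec _ _ chkD_all (S - 35) (by omega)
        have h2 : S - 35 + 35 = S := by omega
        rw [h2] at h1
        have h5 : z / S < (S + 1) * (S + 2) / 2 / S + 1 := by
          have : z / S ≤ (S + 1) * (S + 2) / 2 / S := Nat.div_le_div_right hzlt.le
          omega
        have h3 := allB_spec _ _ h1 (z / S) h5
        rw [Bool.or_eq_true, Nat.ble_eq, Nat.ble_eq] at h3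
        have h4 := card_Q_kD h hz
        have h6 : 4 ≤ z / S := by rw [Nat.le_div_iff_mul_le (by omega)]; exact hz4
        have h7 : (z / S) * S ≤ z := Nat.div_mul_le_self z S
        omega
      · exact card_Q_large h (by omega) hz4 hlt

end Pool.Agent.Helper73.Hick
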